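import Mathlib

/-!
# Matrices which are Vandermonde in three directions with affinely equivalent opposite nodes are the
# transition matrices of Leonard pairs (MP_511af2_al, Q1, partial result)

Let `X ≠ 0` be a `(d+1) × (d+1)` matrix over a field. `X` is the transition matrix of a Leonard pair if and
only if it is north and south Vandermonde with nodes which differ by an affine map of the field, and east or
west Vandermonde; equivalently, if it is east and west Vandermonde with nodes which differ by an affine map,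
and north or south Vandermonde. In this case it is Vandermonde in all four directions.

Proof. If the determinant is not zero, `X` is north Vandermonde with the nodes `θ` if and only if
`X * diagonal θ * X⁻¹` is lower Hessenberg with nonzero entries above the diagonal (`hess_of_north`,
`north_of_hess`). So affinely equivalent north and south nodes give an irreducible tridiagonal matrix
`T = X * diagonal θ * X⁻¹`. It is diagonally similar to its transpose (`symm_exists`), so `Xᵀ * D * X` is
diagonal for some invertible diagonal matrix `D` (`orth`), and `X⁻¹ * diagonal ψ * X` is a diagonal matrix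
times a symmetric matrix (`symm_of_orth`) for all `ψ`. If `X` is east or west Vandermonde with the nodes `ψ`,
this matrix is lower or upper Hessenberg, so it is tridiagonal. That the determinant is not zero is shown by
counting the zero rows and columns (`isUnit_det`).
-/

set_option autoImplicit false
set_option linter.unusedSectionVars false

open Matrix Polynomial

namespace Pool.Agent.Results.MP_511af2_al.EqualNodes

variable {K : Type*} [Field K] {d : ℕ}

/-- `M` is north Vandermonde with the nodes `θ 0, ..., θ d`, where `θ j` belongs to the column `j`: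
the nodes are mutually distinct, and there are polynomials `f i` of degree `i` with
`M i j = M 0 j * f i (θ j)`. -/
def NorthWith (M : Matrix (Fin (d + 1)) (Fin (d + 1)) K) (θ : Fin (d + 1) → K) : Prop :=
  Function.Injective θ ∧ ∃ f : Fin (d + 1) → K[X],
    (∀ i, (f i).degree = ((i : ℕ) : WithBot ℕ)) ∧ ∀ i j, M i j = M 0 j * (f i).eval (θ j)

/-- north Vandermonde -/
def IsNorth (M : Matrix (Fin (d + 1)) (Fin (d + 1)) K) : Prop := ∃ θ, NorthWith M θ

/-- counterclockwise rotation by 90 degrees; `M` is east, south, west Vandermonde if `rot M`,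
`rot (rot M)`, `rot (rot (rot M))` is north Vandermonde -/
def rot (M : Matrix (Fin (d + 1)) (Fin (d + 1)) K) :
    Matrix (Fin (d + 1)) (Fin (d + 1)) K := fun i j => M j (Fin.rev i)

/-- Vandermonde in all four directions: north, east, south, west -/
def FourWay (M : Matrix (Fin (d + 1)) (Fin (d + 1)) K) : Prop :=
  IsNorth M ∧ IsNorth (rot M) ∧ IsNorth (rot (rot M)) ∧ IsNorth (rot (rot (rot M)))

/-- The north and the south nodes of `M` can be chosen affinely equivalent: `M` is north Vandermonde with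
some nodes `θ j` (column `j`), and the rotation of `M` by 180 degrees, whose column `d - j` is the column `j`
of `M` read upwards, is north Vandermonde with nodes `φ (d - j) = a * θ j + b`. -/
def AffineNodes (M : Matrix (Fin (d + 1)) (Fin (d + 1)) K) : Prop :=
  ∃ (θ φ : Fin (d + 1) → K) (a b : K), NorthWith M θ ∧ NorthWith (rot (rot M)) φ ∧
    ∀ j, φ (Fin.rev j) = a * θ j + b

/-- irreducible tridiagonal matrix -/
def IrredTridiagonal (T : Matrix (Fin (d + 1)) (Fin (d + 1)) K) : Prop :=
  (∀ i j : Fin (d + 1), ((i : ℕ) + 1 < j ∨ (j : ℕ) + 1 < i) → T i j = 0) ∧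
    ∀ i j : Fin (d + 1), ((i : ℕ) + 1 = j ∨ (j : ℕ) + 1 = i) → T i j ≠ 0

/-- `M` is the transition matrix of a Leonard pair: `M` is invertible, and there are diagonal matrices
`D`, `E` such that `M * D * M⁻¹` and `M⁻¹ * E * M` are irreducible tridiagonal. -/
def IsLeonard (M : Matrix (Fin (d + 1)) (Fin (d + 1)) K) : Prop :=
  IsUnit M.det ∧ (∃ T θ, IrredTridiagonal T ∧ T * M = M * Matrix.diagonal θ) ∧
    ∃ S ψ, IrredTridiagonal S ∧ M * S = Matrix.diagonal ψ * M

/-- lower Hessenberg -/
def Low (H : Matrix (Fin (d + 1)) (Fin (d + 1)) K) : Prop :=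
  (∀ i k : Fin (d + 1), (i : ℕ) + 1 < k → H i k = 0) ∧
    ∀ i k : Fin (d + 1), (i : ℕ) + 1 = k → H i k ≠ 0

/-- expansion of a polynomial along polynomials of degrees `0, 1, ..., n` -/
theorem expand (f : ℕ → K[X]) (n : ℕ) (hf : ∀ i ≤ n, (f i).degree = (i : WithBot ℕ)) :
    ∀ p : K[X], p.degree ≤ (n : WithBot ℕ) → ∃ c : ℕ → K,
      p = ∑ i ∈ Finset.range (n + 1), C (c i) * f i ∧ c n * (f n).leadingCoeff = p.coeff n := by
  induction n with
  | zero =>
    intro p hp
    have h0 : (f 0).degree = 0 := by simpa using hf 0 le_rfl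
    have h1 : f 0 = C ((f 0).coeff 0) := eq_C_of_degree_eq_zero h0
    have h2 : p = C (p.coeff 0) := eq_C_of_degree_le_zero (by simpa using hp)
    have h3 : (f 0).coeff 0 ≠ 0 := by
      intro h
      rw [h, C_0] at h1
      rw [h1, degree_zero] at h0
      exact absurd h0 (by simp)
    have h5 : (f 0).natDegree = 0 := natDegree_eq_of_degree_eq_some (by simpa using h0)
    have h4 : (f 0).leadingCoeff = (f 0).coeff 0 := by
      rw [leadingCoeff, h5]
    refine ⟨fun _ => p.coeff 0 / (f 0).coeff 0, ?_, ?_⟩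
    · rw [Finset.sum_range_one]
      have h6 : C (p.coeff 0 / (f 0).coeff 0) * f 0 = C (p.coeff 0) := by
        conv_lhs => rw [h1]
        rw [← C_mul, coeff_C_zero, div_mul_cancel₀ _ h3]
      show p = C (p.coeff 0 / (f 0).coeff 0) * f 0
      rw [h6]
      exact h2
    · show p.coeff 0 / (f 0).coeff 0 * (f 0).leadingCoeff = p.coeff 0
      rw [h4, div_mul_cancel₀ _ h3]
  | succ n ih =>
    intro p hp
    have hd := hf (n + 1) le_rfl
    have hl : (f (n + 1)).leadingCoeff ≠ 0 := by
      rw [Ne, leadingCoeff_eq_zero]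
      intro h
      rw [h, degree_zero] at hd
      exact absurd hd (by exact_mod_cast (WithBot.bot_ne_coe))
    have hnd : (f (n + 1)).natDegree = n + 1 := natDegree_eq_of_degree_eq_some hd
    set a := p.coeff (n + 1) / (f (n + 1)).leadingCoeff with ha
    have hq : (p - C a * f (n + 1)).degree ≤ (n : WithBot ℕ) := by
      rw [degree_le_iff_coeff_zero]
      intro m hm
      have hm' : n < m := by exact_mod_cast hm
      rcases Nat.lt_or_eq_of_le (Nat.succ_le_of_lt hm') with h | h
      · rw [coeff_sub, coeff_C_mul]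
        have e1 : p.coeff m = 0 := coeff_eq_zero_of_degree_lt (lt_of_le_of_lt hp (by exact_mod_cast h))
        have e2 : (f (n + 1)).coeff m = 0 :=
          coeff_eq_zero_of_degree_lt (by rw [hd]; exact_mod_cast h)
        rw [e1, e2, mul_zero, sub_zero]
      · have h' : m = n + 1 := h.symm
        subst h'
        rw [coeff_sub, coeff_C_mul]
        have e2 : (f (n + 1)).coeff (n + 1) = (f (n + 1)).leadingCoeff := by
          rw [leadingCoeff, hnd]
        rw [e2, ha, div_mul_cancel₀ _ hl, sub_self]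
    obtain ⟨c, hc1, hc2⟩ := ih (fun i hi => hf i (Nat.le_succ_of_le hi)) _ hq
    refine ⟨fun i => if i = n + 1 then a else c i, ?_, ?_⟩
    · rw [Finset.sum_range_succ]
      simp only [if_true]
      have : ∑ i ∈ Finset.range (n + 1), C (if i = n + 1 then a else c i) * f i =
          ∑ i ∈ Finset.range (n + 1), C (c i) * f i := by
        refine Finset.sum_congr rfl fun i hi => ?_
        rw [if_neg (by have := Finset.mem_range.1 hi; omega)]
      rw [this, ← hc1]
      ring
    · simp only [if_true]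
      rw [ha, div_mul_cancel₀ _ hl]

/-- north Vandermonde and invertible: lower Hessenberg -/
theorem hess_of_north {M : Matrix (Fin (d + 1)) (Fin (d + 1)) K} {θ : Fin (d + 1) → K}
    (h : NorthWith M θ) (hM : IsUnit M.det) :
    ∃ H, Low H ∧ H * M = M * Matrix.diagonal θ := by
  obtain ⟨-, f, hf, hMf⟩ := h
  refine ⟨M * Matrix.diagonal θ * M⁻¹, ?_, ?_⟩
  swap
  · rw [Matrix.mul_assoc, Matrix.nonsing_inv_mul _ hM, Matrix.mul_one]
  have key : ∀ i : Fin (d + 1), (i : ℕ) < d → ∃ c : Fin (d + 1) → K,
      (∀ k : Fin (d + 1), (i : ℕ) + 1 < k → c k = 0) ∧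
      (∀ k : Fin (d + 1), (i : ℕ) + 1 = k → c k ≠ 0) ∧
      (M * Matrix.diagonal θ * M⁻¹) i = c := by
    intro i hi
    let F : ℕ → K[X] := fun m => if h : m < d + 1 then f ⟨m, h⟩ else 0
    have hF : ∀ m ≤ (i : ℕ) + 1, (F m).degree = (m : WithBot ℕ) := by
      intro m hm
      have : m < d + 1 := by omega
      simp only [F, dif_pos this]
      exact hf ⟨m, this⟩
    have hdeg : (X * f i).degree = (((i : ℕ) + 1 : ℕ) : WithBot ℕ) := by
      rw [degree_mul, degree_X, hf i]
      push_cast
      rw [add_comm]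
    obtain ⟨c, hc1, hc2⟩ := expand F ((i : ℕ) + 1) hF (X * f i) (le_of_eq hdeg)
    have hcne : c ((i : ℕ) + 1) ≠ 0 := by
      intro h0
      rw [h0, zero_mul] at hc2
      have hnd : (X * f i).natDegree = (i : ℕ) + 1 := natDegree_eq_of_degree_eq_some hdeg
      have h1 : (X * f i).leadingCoeff = 0 := by rw [leadingCoeff, hnd, ← hc2]
      rw [leadingCoeff_eq_zero] at h1
      rw [h1, degree_zero] at hdeg
      exact absurd hdeg (by exact_mod_cast (WithBot.bot_ne_coe))
    let c' : Fin (d + 1) → K := fun k => if (k : ℕ) ≤ (i : ℕ) + 1 then c k else 0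
    refine ⟨c', ?_, ?_, ?_⟩
    · intro k hk
      simp only [c']
      rw [if_neg (by omega)]
    · intro k hk
      simp only [c']
      rw [if_pos (by omega), ← hk]
      exact hcne
    · have hrow : (M * Matrix.diagonal θ) i = c' ᵥ* M := by
        funext j
        rw [Matrix.mul_diagonal, Matrix.vecMul]
        have e1 : (X * f i).eval (θ j) = ∑ m ∈ Finset.range ((i : ℕ) + 1 + 1), c m * (F m).eval (θ j) := by
          rw [hc1, eval_finsetSum]
          refine Finset.sum_congr rfl fun m _ => ?_
          rw [eval_mul, eval_C]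
        rw [eval_mul, eval_X] at e1
        have e2 : c' ⬝ᵥ (fun k => M k j) = ∑ k : Fin (d + 1), c' k * M k j := rfl
        rw [e2]
        have e3 : ∑ k : Fin (d + 1), c' k * M k j =
            ∑ m ∈ Finset.range (d + 1), (if m ≤ (i : ℕ) + 1 then c m * (M 0 j * (F m).eval (θ j)) else 0) := by
          rw [← Fin.sum_univ_eq_sum_range (fun m => if m ≤ (i : ℕ) + 1 then c m * (M 0 j * (F m).eval (θ j)) else 0)]
          refine Finset.sum_congr rfl fun k _ => ?_
          simp only [c']
          by_cases hk : (k : ℕ) ≤ (i : ℕ) + 1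
          · rw [if_pos hk, if_pos hk]
            have : F (k : ℕ) = f k := by simp only [F, dif_pos k.isLt]
            rw [this, ← hMf k j]
          · rw [if_neg hk, if_neg hk, zero_mul]
        rw [e3, ← Finset.sum_filter]
        have e4 : (Finset.range (d + 1)).filter (fun m => m ≤ (i : ℕ) + 1) = Finset.range ((i : ℕ) + 1 + 1) := by
          ext m
          simp only [Finset.mem_filter, Finset.mem_range]
          omega
        rw [e4, hMf i j, mul_assoc, mul_comm _ (θ j), e1, Finset.mul_sum]
        refine Finset.sum_congr rfl fun m _ => ?_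
        ring
      have : (M * Matrix.diagonal θ * M⁻¹) i = ((M * Matrix.diagonal θ) i) ᵥ* M⁻¹ := by
        funext j
        rfl
      rw [this, hrow, Matrix.vecMul_vecMul, Matrix.mul_nonsing_inv _ hM, Matrix.vecMul_one]
  refine ⟨?_, ?_⟩
  · intro i k hik
    obtain ⟨c, h1, -, h3⟩ := key i (by have := k.isLt; omega)
    have : (M * Matrix.diagonal θ * M⁻¹) i k = c k := congrFun h3 k
    rw [this]
    exact h1 k hik
  · intro i k hik
    obtain ⟨c, -, h2, h3⟩ := key i (by have := k.isLt; omega)
    have : (M * Matrix.diagonal θ * M⁻¹) i k = c k := congrFun h3 k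
    rw [this]
    exact h2 k hik

/-- lower Hessenberg gives polynomials -/
theorem polys_of_hess {M H : Matrix (Fin (d + 1)) (Fin (d + 1)) K} {θ : Fin (d + 1) → K}
    (hH : Low H) (h : H * M = M * Matrix.diagonal θ) :
    ∃ f : Fin (d + 1) → K[X],
    (∀ i, (f i).degree = ((i : ℕ) : WithBot ℕ)) ∧ ∀ i j, M i j = M 0 j * (f i).eval (θ j) := by
  have key : ∀ n : ℕ, ∀ hn : n < d + 1, ∃ p : K[X], p.degree = (n : WithBot ℕ) ∧
      ∀ j, M ⟨n, hn⟩ j = M 0 j * p.eval (θ j) := by
    intro n
    induction n using Nat.strong_induction_on with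
    | _ n ih =>
      intro hn
      rcases Nat.eq_zero_or_pos n with h0 | h0
      · subst h0
        refine ⟨1, by simp, fun j => ?_⟩
        rw [eval_one, mul_one]
        rfl
      · obtain ⟨m, rfl⟩ : ∃ m, n = m + 1 := ⟨n - 1, by omega⟩
        choose! F hF1 hF2 using ih
        have hm : m < d + 1 := by omega
        let G : Fin (d + 1) → K[X] := fun k => if (k : ℕ) ≤ m then F k else 0
        set t := H ⟨m, hm⟩ ⟨m + 1, hn⟩ with ht
        have ht0 : t ≠ 0 := hH.2 _ _ rfl
        have hdegS : (∑ k : Fin (d + 1), C (H ⟨m, hm⟩ k) * G k).degree < ((m + 1 : ℕ) : WithBot ℕ) := by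
          refine lt_of_le_of_lt (degree_sum_le _ _) ?_
          rw [Finset.sup_lt_iff (by exact_mod_cast WithBot.bot_lt_coe _)]
          intro k _
          simp only [G]
          by_cases hk : (k : ℕ) ≤ m
          · rw [if_pos hk]
            rw [← smul_eq_C_mul]
            refine lt_of_le_of_lt (degree_smul_le _ _) ?_
            rw [hF1 k (by omega) k.isLt]
            exact_mod_cast Nat.lt_succ_of_le hk
          · rw [if_neg hk, mul_zero, degree_zero]
            exact_mod_cast WithBot.bot_lt_coe _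
        have hdegX : (X * F m).degree = ((m + 1 : ℕ) : WithBot ℕ) := by
          rw [degree_mul, degree_X, hF1 m (by omega) hm]
          push_cast
          rw [add_comm]
        refine ⟨C t⁻¹ * (X * F m - ∑ k : Fin (d + 1), C (H ⟨m, hm⟩ k) * G k), ?_, ?_⟩
        · rw [degree_C_mul (inv_ne_zero ht0), degree_sub_eq_left_of_degree_lt (by rw [hdegX]; exact hdegS), hdegX]
        · intro j
          have e := congrFun (congrFun h ⟨m, hm⟩) j
          rw [Matrix.mul_diagonal, Matrix.mul_apply] at e
          have e2 : ∑ k : Fin (d + 1), H ⟨m, hm⟩ k * M k j =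
              (∑ k : Fin (d + 1), H ⟨m, hm⟩ k * (M 0 j * (G k).eval (θ j))) + t * M ⟨m + 1, hn⟩ j := by
            rw [← Finset.sum_erase_add _ _ (Finset.mem_univ (⟨m + 1, hn⟩ : Fin (d + 1)))]
            congr 1
            rw [← Finset.sum_erase_add _ (fun k => H ⟨m, hm⟩ k * (M 0 j * (G k).eval (θ j)))
              (Finset.mem_univ (⟨m + 1, hn⟩ : Fin (d + 1)))]
            have : G ⟨m + 1, hn⟩ = 0 := by
              simp only [G]
              rw [if_neg (by omega)]
            rw [this, eval_zero, mul_zero, mul_zero, add_zero]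
            refine Finset.sum_congr rfl fun k hk => ?_
            have hk1 : k ≠ ⟨m + 1, hn⟩ := Finset.ne_of_mem_erase hk
            have hk2 : (k : ℕ) ≠ m + 1 := fun h => hk1 (Fin.ext h)
            by_cases hk3 : (k : ℕ) ≤ m
            · simp only [G]
              rw [if_pos hk3, ← hF2 k (by omega) k.isLt j]
            · have : H ⟨m, hm⟩ k = 0 := hH.1 _ _ (by show m + 1 < (k : ℕ); omega)
              rw [this, zero_mul, zero_mul]
          rw [e2, hF2 m (by omega) hm j] at e
          rw [eval_mul, eval_C, eval_sub, eval_mul, eval_X, eval_finsetSum]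
          have e3 : ∑ k : Fin (d + 1), (C (H ⟨m, hm⟩ k) * G k).eval (θ j) =
              ∑ k : Fin (d + 1), H ⟨m, hm⟩ k * (G k).eval (θ j) := by
            refine Finset.sum_congr rfl fun k _ => ?_
            rw [eval_mul, eval_C]
          have e4 : ∑ k : Fin (d + 1), H ⟨m, hm⟩ k * (M 0 j * (G k).eval (θ j)) =
              M 0 j * ∑ k : Fin (d + 1), H ⟨m, hm⟩ k * (G k).eval (θ j) := by
            rw [Finset.mul_sum]
            refine Finset.sum_congr rfl fun k _ => ?_
            ring
          rw [e3]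
          rw [e4] at e
          have e5 : t * M ⟨m + 1, hn⟩ j = M 0 j * (θ j * (F m).eval (θ j) -
              ∑ k : Fin (d + 1), H ⟨m, hm⟩ k * (G k).eval (θ j)) := by
            linear_combination e
          rw [eq_comm, ← mul_assoc, mul_comm (M 0 j), mul_assoc, ← e5, ← mul_assoc, inv_mul_cancel₀ ht0, one_mul]
  choose f hf1 hf2 using key
  exact ⟨fun i => f i i.isLt, fun i => hf1 i i.isLt, fun i j => hf2 i i.isLt j⟩



/-- the nodes are distinct -/
theorem injective_of_polys {M : Matrix (Fin (d + 1)) (Fin (d + 1)) K} {θ : Fin (d + 1) → K}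
    (hM : IsUnit M.det) (h : ∃ f : Fin (d + 1) → K[X],
      (∀ i, (f i).degree = ((i : ℕ) : WithBot ℕ)) ∧ ∀ i j, M i j = M 0 j * (f i).eval (θ j)) :
    Function.Injective θ := by
  obtain ⟨f, -, hf⟩ := h
  intro a b hab
  by_contra hne
  have h1 : M = (Matrix.of fun i j => (f i).eval (θ j)) * Matrix.diagonal (fun j => M 0 j) := by
    ext i j
    rw [Matrix.mul_diagonal, Matrix.of_apply, hf i j, mul_comm]
  have h2 : (Matrix.of fun i j => (f i).eval (θ j) : Matrix (Fin (d + 1)) (Fin (d + 1)) K).det = 0 := by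
    refine Matrix.det_zero_of_column_eq hne fun i => ?_
    rw [Matrix.of_apply, Matrix.of_apply, hab]
  rw [h1, Matrix.det_mul, h2, zero_mul] at hM
  exact not_isUnit_zero hM

theorem north_of_hess {M H : Matrix (Fin (d + 1)) (Fin (d + 1)) K} {θ : Fin (d + 1) → K}
    (hM : IsUnit M.det) (hH : Low H) (h : H * M = M * Matrix.diagonal θ) : NorthWith M θ :=
  ⟨injective_of_polys hM (polys_of_hess hH h), polys_of_hess hH h⟩

theorem rot_eq (M : Matrix (Fin (d + 1)) (Fin (d + 1)) K) :
    rot M = (Mᵀ).submatrix Fin.revPerm id := rfl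

theorem rot2_eq (M : Matrix (Fin (d + 1)) (Fin (d + 1)) K) :
    rot (rot M) = M.submatrix Fin.revPerm Fin.revPerm := by
  ext i j
  simp [rot]

theorem rot3_eq (M : Matrix (Fin (d + 1)) (Fin (d + 1)) K) :
    rot (rot (rot M)) = (Mᵀ).submatrix id Fin.revPerm := by
  ext i j
  simp [rot]

theorem det_rot {M : Matrix (Fin (d + 1)) (Fin (d + 1)) K} (h : IsUnit M.det) :
    IsUnit (rot M).det := by
  rw [rot_eq, Matrix.det_permute, Matrix.det_transpose]
  refine IsUnit.mul ?_ h
  exact ((Equiv.Perm.sign Fin.revPerm : ℤˣ).isUnit).map (Int.castRingHom K)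

theorem rot4 (M : Matrix (Fin (d + 1)) (Fin (d + 1)) K) : rot (rot (rot (rot M))) = M := by
  ext i j
  simp [rot]

/-- IrredTridiagonal in terms of Low -/
theorem tri_iff {T : Matrix (Fin (d + 1)) (Fin (d + 1)) K} :
    IrredTridiagonal T ↔ Low T ∧ Low Tᵀ := by
  constructor
  · rintro ⟨h1, h2⟩
    exact ⟨⟨fun i k h => h1 i k (Or.inl h), fun i k h => h2 i k (Or.inl h)⟩,
      ⟨fun i k h => h1 k i (Or.inr h), fun i k h => h2 k i (Or.inr h)⟩⟩
  · rintro ⟨h1, h2⟩
    exact ⟨fun i j h => h.elim (h1.1 i j) (h2.1 j i), fun i j h => h.elim (h1.2 i j) (h2.2 j i)⟩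

theorem low_rev {H : Matrix (Fin (d + 1)) (Fin (d + 1)) K} (h : Low H) :
    Low ((H.submatrix Fin.rev Fin.rev)ᵀ) := by
  constructor
  · intro i k hik
    show H (Fin.rev k) (Fin.rev i) = 0
    refine h.1 _ _ ?_
    rw [Fin.val_rev, Fin.val_rev]
    have := i.isLt
    have := k.isLt
    omega
  · intro i k hik
    show H (Fin.rev k) (Fin.rev i) ≠ 0
    refine h.2 _ _ ?_
    rw [Fin.val_rev, Fin.val_rev]
    have := i.isLt
    have := k.isLt
    omega

theorem sum_rev (f : Fin (d + 1) → K) : ∑ k, f (Fin.rev k) = ∑ k, f k :=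
  Equiv.sum_comp Fin.revPerm f

theorem t2 {M H : Matrix (Fin (d + 1)) (Fin (d + 1)) K} {θ : Fin (d + 1) → K}
    (h : H * M = M * Matrix.diagonal θ) :
    (H.submatrix Fin.rev Fin.rev) * rot (rot M) = rot (rot M) * Matrix.diagonal (fun j => θ (Fin.rev j)) := by
  ext i j
  have e := congrFun (congrFun h (Fin.rev i)) (Fin.rev j)
  rw [Matrix.mul_diagonal, Matrix.mul_apply] at e
  rw [Matrix.mul_diagonal, Matrix.mul_apply]
  simp only [rot, Matrix.submatrix_apply]
  rw [← e]
  exact sum_rev fun k => H (Fin.rev i) k * M k (Fin.rev j)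

theorem t1 {M G : Matrix (Fin (d + 1)) (Fin (d + 1)) K} {ψ : Fin (d + 1) → K}
    (h : M * G = Matrix.diagonal ψ * M) :
    ((G.submatrix Fin.rev Fin.rev)ᵀ) * rot M = rot M * Matrix.diagonal ψ := by
  ext i j
  have e := congrFun (congrFun h j) (Fin.rev i)
  rw [Matrix.diagonal_mul, Matrix.mul_apply, ← sum_rev] at e
  rw [Matrix.mul_diagonal, Matrix.mul_apply]
  simp only [rot, Matrix.submatrix_apply, Matrix.transpose_apply]
  rw [mul_comm (M j (Fin.rev i)), ← e]
  exact Finset.sum_congr rfl fun k _ => mul_comm _ _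

theorem t1' {M H : Matrix (Fin (d + 1)) (Fin (d + 1)) K} {ψ : Fin (d + 1) → K}
    (h : H * rot M = rot M * Matrix.diagonal ψ) :
    M * ((H.submatrix Fin.rev Fin.rev)ᵀ) = Matrix.diagonal ψ * M := by
  ext j i
  have e := congrFun (congrFun h (Fin.rev i)) j
  rw [Matrix.mul_diagonal, Matrix.mul_apply, ← sum_rev] at e
  simp only [rot, Fin.rev_rev] at e
  rw [Matrix.diagonal_mul, Matrix.mul_apply]
  simp only [Matrix.submatrix_apply, Matrix.transpose_apply]
  rw [mul_comm (ψ j), ← e]
  exact Finset.sum_congr rfl fun k _ => mul_comm _ _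

theorem t3 {M G : Matrix (Fin (d + 1)) (Fin (d + 1)) K} {ψ : Fin (d + 1) → K}
    (h : M * G = Matrix.diagonal ψ * M) :
    Gᵀ * rot (rot (rot M)) = rot (rot (rot M)) * Matrix.diagonal (fun j => ψ (Fin.rev j)) := by
  ext i j
  have e := congrFun (congrFun h (Fin.rev j)) i
  rw [Matrix.diagonal_mul, Matrix.mul_apply] at e
  rw [Matrix.mul_diagonal, Matrix.mul_apply]
  simp only [rot, Matrix.transpose_apply, Fin.rev_rev]
  rw [mul_comm (M (Fin.rev j) i), ← e]
  exact Finset.sum_congr rfl fun k _ => mul_comm _ _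

theorem t3' {M H : Matrix (Fin (d + 1)) (Fin (d + 1)) K} {ψ : Fin (d + 1) → K}
    (h : H * rot (rot (rot M)) = rot (rot (rot M)) * Matrix.diagonal ψ) :
    M * Hᵀ = Matrix.diagonal (fun j => ψ (Fin.rev j)) * M := by
  ext a b
  have e := congrFun (congrFun h b) (Fin.rev a)
  rw [Matrix.mul_diagonal, Matrix.mul_apply] at e
  simp only [rot, Fin.rev_rev] at e
  rw [Matrix.diagonal_mul, Matrix.mul_apply]
  simp only [Matrix.transpose_apply]
  rw [mul_comm (ψ (Fin.rev a)), ← e]
  exact Finset.sum_congr rfl fun k _ => mul_comm _ _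

/-- an irreducible tridiagonal matrix is symmetrizable -/
theorem symm_exists {T : Matrix (Fin (d + 1)) (Fin (d + 1)) K} (hT : IrredTridiagonal T) :
    ∃ k : Fin (d + 1) → K, (∀ i, k i ≠ 0) ∧ ∀ i j, k i * T i j = k j * T j i := by
  let g : ℕ → K := fun m => if h : m + 1 < d + 1 then
    T ⟨m, by omega⟩ ⟨m + 1, h⟩ / T ⟨m + 1, h⟩ ⟨m, by omega⟩ else 1
  have hg : ∀ m, g m ≠ 0 := by
    intro m
    by_cases h : m + 1 < d + 1
    · simp only [g, dif_pos h]
      exact div_ne_zero (hT.2 _ _ (Or.inl rfl)) (hT.2 _ _ (Or.inr rfl))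
    · simp only [g, dif_neg h]
      exact one_ne_zero
  let k : Fin (d + 1) → K := fun i => ∏ m ∈ Finset.range (i : ℕ), g m
  have hstep : ∀ i j : Fin (d + 1), (i : ℕ) + 1 = j → k i * T i j = k j * T j i := by
    intro i j hij
    obtain ⟨i, hi⟩ := i
    obtain ⟨j, hj⟩ := j
    simp only at hij
    subst hij
    simp only [k]
    rw [Finset.prod_range_succ]
    simp only [g, dif_pos hj]
    have : T ⟨i + 1, hj⟩ ⟨i, hi⟩ ≠ 0 := hT.2 _ _ (Or.inr rfl)
    field_simp
  refine ⟨k, fun i => Finset.prod_ne_zero_iff.2 fun m _ => hg m, fun i j => ?_⟩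
  rcases lt_trichotomy (i : ℕ) (j : ℕ) with h | h | h
  · rcases Nat.lt_or_eq_of_le (Nat.succ_le_of_lt h) with h' | h'
    · rw [hT.1 i j (Or.inl h'), hT.1 j i (Or.inr h'), mul_zero, mul_zero]
    · exact hstep i j h'
  · rw [Fin.ext h]
  · rcases Nat.lt_or_eq_of_le (Nat.succ_le_of_lt h) with h' | h'
    · rw [hT.1 i j (Or.inr h'), hT.1 j i (Or.inl h'), mul_zero, mul_zero]
    · exact (hstep j i h').symm

/-- orthogonality -/
theorem orth {M T : Matrix (Fin (d + 1)) (Fin (d + 1)) K} {θ : Fin (d + 1) → K}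
    (hM : IsUnit M.det) (hθ : Function.Injective θ) (hT : IrredTridiagonal T)
    (h : T * M = M * Matrix.diagonal θ) :
    ∃ k s : Fin (d + 1) → K, (∀ i, s i ≠ 0) ∧ Mᵀ * Matrix.diagonal k * M = Matrix.diagonal s := by
  obtain ⟨k, hk, hkT⟩ := symm_exists hT
  have hKT : Matrix.diagonal k * T = Tᵀ * Matrix.diagonal k := by
    ext i j
    rw [Matrix.diagonal_mul, Matrix.mul_diagonal, Matrix.transpose_apply, hkT i j, mul_comm]
  have hc : (Mᵀ * Matrix.diagonal k * M) * Matrix.diagonal θ =
      Matrix.diagonal θ * (Mᵀ * Matrix.diagonal k * M) := by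
    have e1 : Matrix.diagonal θ * Mᵀ = Mᵀ * Tᵀ := by
      rw [← Matrix.transpose_mul, h, Matrix.transpose_mul, Matrix.diagonal_transpose]
    rw [Matrix.mul_assoc, ← h, ← Matrix.mul_assoc, Matrix.mul_assoc Mᵀ, hKT, ← Matrix.mul_assoc,
      ← e1, Matrix.mul_assoc, Matrix.mul_assoc, Matrix.mul_assoc]
  have hdiag : Mᵀ * Matrix.diagonal k * M =
      Matrix.diagonal (fun i => (Mᵀ * Matrix.diagonal k * M) i i) := by
    ext a b
    by_cases hab : a = b
    · subst hab
      rw [Matrix.diagonal_apply_eq]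
    · rw [Matrix.diagonal_apply_ne _ hab]
      have e := congrFun (congrFun hc a) b
      rw [Matrix.mul_diagonal, Matrix.diagonal_mul] at e
      have hne : θ b - θ a ≠ 0 := sub_ne_zero.2 fun h' => hab (hθ h').symm
      have e2 : (Mᵀ * Matrix.diagonal k * M) a b * (θ b - θ a) = 0 := by linear_combination e
      exact (mul_eq_zero.1 e2).resolve_right hne
  refine ⟨k, _, ?_, hdiag⟩
  have hdet : IsUnit (Mᵀ * Matrix.diagonal k * M).det := by
    rw [Matrix.det_mul, Matrix.det_mul, Matrix.det_transpose, Matrix.det_diagonal]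
    exact (hM.mul (isUnit_iff_ne_zero.2 (Finset.prod_ne_zero_iff.2 fun i _ => hk i))).mul hM
  rw [hdiag, Matrix.det_diagonal] at hdet
  intro i hi
  have := isUnit_iff_ne_zero.1 hdet
  exact this (Finset.prod_eq_zero (Finset.mem_univ i) hi)

theorem symm_of_orth {M G : Matrix (Fin (d + 1)) (Fin (d + 1)) K} {k s ψ : Fin (d + 1) → K}
    (hs : Mᵀ * Matrix.diagonal k * M = Matrix.diagonal s)
    (h : M * G = Matrix.diagonal ψ * M) (a b : Fin (d + 1)) : s a * G a b = s b * G b a := by
  have e1 : Matrix.diagonal s * G = Mᵀ * (Matrix.diagonal k * Matrix.diagonal ψ) * M := by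
    rw [← hs, Matrix.mul_assoc, h, ← Matrix.mul_assoc, ← Matrix.mul_assoc]
  have e2 : (Matrix.diagonal s * G)ᵀ = Matrix.diagonal s * G := by
    rw [e1, Matrix.transpose_mul, Matrix.transpose_mul, Matrix.transpose_transpose,
      Matrix.transpose_mul, Matrix.diagonal_transpose, Matrix.diagonal_transpose,
      Matrix.diagonal_mul_diagonal, Matrix.diagonal_mul_diagonal, Matrix.mul_assoc]
    congr 3
    ext i
    exact mul_comm _ _
  have e3 := congrFun (congrFun e2 b) a
  rw [Matrix.transpose_apply, Matrix.diagonal_mul, Matrix.diagonal_mul] at e3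
  exact e3

theorem tri_of_low {G : Matrix (Fin (d + 1)) (Fin (d + 1)) K} {s : Fin (d + 1) → K}
    (hs : ∀ i, s i ≠ 0) (hG : Low G) (h : ∀ a b, s a * G a b = s b * G b a) :
    IrredTridiagonal G := by
  rw [tri_iff]
  refine ⟨hG, ⟨fun i k hik => ?_, fun i k hik => ?_⟩⟩
  · show G k i = 0
    have := h i k
    rw [hG.1 i k hik, mul_zero] at this
    exact (mul_eq_zero.1 this.symm).resolve_left (hs k)
  · show G k i ≠ 0
    intro h0
    have := h i k
    rw [h0, mul_zero] at this
    exact (mul_ne_zero (hs i) (hG.2 i k hik)) this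

theorem det_of_polys {f : Fin (d + 1) → K[X]} {θ : Fin (d + 1) → K}
    (hf : ∀ i, (f i).degree = ((i : ℕ) : WithBot ℕ)) (hθ : Function.Injective θ) :
    (Matrix.of fun i j => (f i).eval (θ j) : Matrix (Fin (d + 1)) (Fin (d + 1)) K).det ≠ 0 := by
  have hne : ∀ i, f i ≠ 0 := by
    intro i h
    have := hf i
    rw [h, degree_zero] at this
    exact absurd this (by exact_mod_cast (WithBot.bot_ne_coe))
  have hl : ∀ i, (f i).leadingCoeff ≠ 0 := fun i => leadingCoeff_ne_zero.2 (hne i)
  let p : Fin (d + 1) → K[X] := fun i => C (f i).leadingCoeff⁻¹ * f i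
  have hp1 : ∀ i, (p i).natDegree = (i : ℕ) := by
    intro i
    refine natDegree_eq_of_degree_eq_some ?_
    simp only [p]
    rw [degree_C_mul (inv_ne_zero (hl i)), hf i]
  have hp2 : ∀ i, (p i).Monic := fun i =>
    monic_C_mul_of_mul_leadingCoeff_eq_one (inv_mul_cancel₀ (hl i))
  have h1 : (Matrix.of fun i j => (f i).eval (θ j) : Matrix (Fin (d + 1)) (Fin (d + 1)) K) =
      Matrix.diagonal (fun i => (f i).leadingCoeff) *
        (Matrix.of fun i j => (p j).eval (θ i) : Matrix (Fin (d + 1)) (Fin (d + 1)) K)ᵀ := by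
    ext i j
    rw [Matrix.diagonal_mul, Matrix.transpose_apply, Matrix.of_apply, Matrix.of_apply]
    simp only [p]
    rw [eval_mul, eval_C, ← mul_assoc, mul_inv_cancel₀ (hl i), one_mul]
  rw [h1, Matrix.det_mul, Matrix.det_diagonal, Matrix.det_transpose,
    ← Matrix.det_eval_matrixOfPolynomials_eq_det_vandermonde θ p hp1 hp2]
  exact mul_ne_zero (Finset.prod_ne_zero_iff.2 fun i _ => hl i) (Matrix.det_vandermonde_ne_zero_iff.2 hθ)

theorem det_of_top {M : Matrix (Fin (d + 1)) (Fin (d + 1)) K} {θ : Fin (d + 1) → K}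
    (h : NorthWith M θ) (h0 : ∀ j, M 0 j ≠ 0) : IsUnit M.det := by
  obtain ⟨hθ, f, hf, hMf⟩ := h
  have h1 : M = (Matrix.of fun i j => (f i).eval (θ j)) * Matrix.diagonal (fun j => M 0 j) := by
    ext i j
    rw [Matrix.mul_diagonal, Matrix.of_apply, hMf i j, mul_comm]
  rw [h1, Matrix.det_mul, Matrix.det_diagonal]
  exact isUnit_iff_ne_zero.2 (mul_ne_zero (det_of_polys hf hθ)
    (Finset.prod_ne_zero_iff.2 fun j _ => h0 j))

/-- a polynomial of degree `n` has at most `n` zeros among distinct nodes -/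
theorem card_zeros {p : K[X]} {n : ℕ} (hp : p.degree = (n : WithBot ℕ)) {θ : Fin (d + 1) → K}
    (hθ : Function.Injective θ) (s : Finset (Fin (d + 1))) (h : ∀ i ∈ s, p.eval (θ i) = 0) :
    s.card ≤ n := by
  classical
  by_contra hcon
  have h1 : p = 0 := by
    refine Polynomial.eq_zero_of_natDegree_lt_card_of_eval_eq_zero' p (s.image θ) ?_ ?_
    · intro x hx
      obtain ⟨i, hi, rfl⟩ := Finset.mem_image.1 hx
      exact h i hi
    · rw [Finset.card_image_of_injective _ hθ, natDegree_eq_of_degree_eq_some hp]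
      omega
  rw [h1, degree_zero] at hp
  exact absurd hp (by exact_mod_cast (WithBot.bot_ne_coe))

/-- the number of rows and columns which are not zero -/
theorem no_zero_column {M : Matrix (Fin (d + 1)) (Fin (d + 1)) K} (hM : M ≠ 0)
    (row : Fin (d + 1) → Prop) (col : Fin (d + 1) → Prop)
    [DecidablePred row] [DecidablePred col]
    (hrow : ∀ i, ¬ row i → ∀ j, M i j = 0) 
    (hE' : (∀ c, ¬ col c → (Finset.univ.filter row).card + (c : ℕ) ≤ d) ∨
      ∀ c, ¬ col c → (Finset.univ.filter row).card ≤ (c : ℕ))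
    (hN : ∀ i, ¬ row i → (Finset.univ.filter col).card ≤ (i : ℕ) ∧
      (Finset.univ.filter col).card + (i : ℕ) ≤ d) : ∀ c, col c := by
  set r := (Finset.univ.filter row).card with hr
  set c := (Finset.univ.filter col).card with hc
  by_contra hcon
  push Not at hcon
  obtain ⟨c0, hc0⟩ := hcon
  have hsum1 : (Finset.univ.filter fun j => ¬ col j).card + c = d + 1 := by
    have := Finset.card_filter_add_card_filter_not (s := Finset.univ) col
    rw [Finset.card_univ, Fintype.card_fin] at this
    omega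
  have hsum2 : (Finset.univ.filter fun j => ¬ row j).card + r = d + 1 := by
    have := Finset.card_filter_add_card_filter_not (s := Finset.univ) row
    rw [Finset.card_univ, Fintype.card_fin] at this
    omega
  have h1 : (Finset.univ.filter fun j => ¬ col j).card ≤ d + 1 - r := by
    rcases hE' with h | h
    · calc (Finset.univ.filter fun j => ¬ col j).card ≤ (Finset.range (d + 1 - r)).card := by
            refine Finset.card_le_card_of_injOn (fun j => (j : ℕ)) ?_ ?_
            · intro j hj
              have := h j (Finset.mem_filter.1 (Finset.mem_coe.1 hj)).2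
              simp only [Finset.coe_range, Set.mem_Iio]
              omega
            · intro a _ b _ hab
              exact Fin.ext hab
        _ = d + 1 - r := Finset.card_range _
    · calc (Finset.univ.filter fun j => ¬ col j).card ≤ (Finset.Ico r (d + 1)).card := by
            refine Finset.card_le_card_of_injOn (fun j => (j : ℕ)) ?_ ?_
            · intro j hj
              have := h j (Finset.mem_filter.1 (Finset.mem_coe.1 hj)).2
              simp only [Finset.coe_Ico, Set.mem_Ico]
              exact ⟨this, j.isLt⟩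
            · intro a _ b _ hab
              exact Fin.ext hab
        _ = d + 1 - r := Nat.card_Ico _ _
  have hrd : r ≤ d := by
    have := c0.isLt
    rcases hE' with h | h
    · have := h c0 hc0
      omega
    · have := h c0 hc0
      omega
  have h2 : ∃ i, ¬ row i := by
    by_contra hall
    push Not at hall
    have : (Finset.univ.filter row) = Finset.univ := Finset.filter_true_of_mem fun i _ => hall i
    rw [this, Finset.card_univ, Fintype.card_fin] at hr
    omega
  obtain ⟨i0, hi0⟩ := h2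
  have h3 := hN i0 hi0
  have h4 : (Finset.univ.filter fun j => ¬ row j).card ≤ d + 1 - c - c := by
    calc (Finset.univ.filter fun j => ¬ row j).card ≤ (Finset.Ico c (d + 1 - c)).card := by
          refine Finset.card_le_card_of_injOn (fun j => (j : ℕ)) ?_ ?_
          · intro j hj
            have := hN j (Finset.mem_filter.1 (Finset.mem_coe.1 hj)).2
            simp only [Finset.coe_Ico, Set.mem_Ico]
            omega
          · intro a _ b _ hab
            exact Fin.ext hab
      _ = d + 1 - c - c := Nat.card_Ico _ _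
  have h5 : r = 0 := by omega
  apply hM
  ext i j
  refine hrow i (fun hri => ?_) j
  have : i ∈ Finset.univ.filter row := Finset.mem_filter.2 ⟨Finset.mem_univ _, hri⟩
  rw [hr, Finset.card_eq_zero] at h5
  rw [h5] at this
  exact absurd this (Finset.notMem_empty i)

theorem isUnit_det {M : Matrix (Fin (d + 1)) (Fin (d + 1)) K} (hM : M ≠ 0) (hN : IsNorth M)
    (hS : IsNorth (rot (rot M))) (hE : IsNorth (rot M) ∨ IsNorth (rot (rot (rot M)))) :
    IsUnit M.det := by
  classical
  obtain ⟨θ, hNθ⟩ := hN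
  refine det_of_top hNθ ?_
  obtain ⟨hθ, f, hf, hMf⟩ := hNθ
  obtain ⟨φ, hφ, g, hg, hMg⟩ := hS
  have hcolS : ∀ i j, M i j = M (Fin.last d) j * (g (Fin.rev i)).eval (φ (Fin.rev j)) := by
    intro i j
    have := hMg (Fin.rev i) (Fin.rev j)
    simpa [rot] using this
  have hS0 : ∀ j, M 0 j ≠ 0 → M (Fin.last d) j ≠ 0 := by
    intro j h h'
    apply h
    rw [hcolS 0 j, h', zero_mul]
  -- zero rows
  have hN' : ∀ row : Fin (d + 1) → Prop, (∀ i, ¬ row i → ∀ j, M i j = 0) →
      ∀ i, ¬ row i → (Finset.univ.filter fun j => M 0 j ≠ 0).card ≤ (i : ℕ) ∧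
        (Finset.univ.filter fun j => M 0 j ≠ 0).card + (i : ℕ) ≤ d := by
    intro row hrow i hi
    constructor
    · refine card_zeros (hf i) hθ _ fun j hj => ?_
      have h0 := (Finset.mem_filter.1 hj).2
      have h1 := hMf i j
      rw [hrow i hi j] at h1
      exact (mul_eq_zero.1 h1.symm).resolve_left h0
    · have h2 : (Finset.univ.filter fun j => M 0 j ≠ 0).card ≤ ((Fin.rev i : Fin (d + 1)) : ℕ) := by
        refine card_zeros (θ := fun j => φ (Fin.rev j)) (hg (Fin.rev i)) ?_ _ fun j hj => ?_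
        · intro a b hab
          exact Fin.rev_injective (hφ hab)
        · have h0 := hS0 j (Finset.mem_filter.1 hj).2
          have h1 := hcolS i j
          rw [hrow i hi j] at h1
          exact (mul_eq_zero.1 h1.symm).resolve_left h0
      rw [Fin.val_rev] at h2
      have := i.isLt
      omega
  rcases hE with ⟨ψ, hψ, e, he, hMe⟩ | ⟨ψ, hψ, e, he, hMe⟩
  · have hrowE : ∀ i j, M i j = M i (Fin.last d) * (e (Fin.rev j)).eval (ψ i) := by
      intro i j
      have := hMe (Fin.rev j) i
      simpa [rot] using this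
    have hrow : ∀ i, ¬ (M i (Fin.last d) ≠ 0) → ∀ j, M i j = 0 := by
      intro i hi j
      rw [not_not] at hi
      rw [hrowE i j, hi, zero_mul]
    refine no_zero_column hM (fun i => M i (Fin.last d) ≠ 0) (fun j => M 0 j ≠ 0) hrow
      (Or.inl ?_) (hN' _ hrow)
    intro c hc
    rw [not_not] at hc
    have h2 : (Finset.univ.filter fun i => M i (Fin.last d) ≠ 0).card ≤
        ((Fin.rev c : Fin (d + 1)) : ℕ) := by
      refine card_zeros (he (Fin.rev c)) hψ _ fun i hi => ?_
      have h0 := (Finset.mem_filter.1 hi).2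
      have h1 := hrowE i c
      rw [hMf i c, hc, zero_mul] at h1
      exact (mul_eq_zero.1 h1.symm).resolve_left h0
    rw [Fin.val_rev] at h2
    have := c.isLt
    omega
  · have hrowW : ∀ i j, M i j = M i 0 * (e j).eval (ψ (Fin.rev i)) := by
      intro i j
      have := hMe j (Fin.rev i)
      simpa [rot] using this
    have hrow : ∀ i, ¬ (M i 0 ≠ 0) → ∀ j, M i j = 0 := by
      intro i hi j
      rw [not_not] at hi
      rw [hrowW i j, hi, zero_mul]
    refine no_zero_column hM (fun i => M i 0 ≠ 0) (fun j => M 0 j ≠ 0) hrow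
      (Or.inr ?_) (hN' _ hrow)
    intro c hc
    rw [not_not] at hc
    refine card_zeros (θ := fun i => ψ (Fin.rev i)) (he c) ?_ _ fun i hi => ?_
    · intro a b hab
      exact Fin.rev_injective (hψ hab)
    · have h0 := (Finset.mem_filter.1 hi).2
      have h1 := hrowW i c
      rw [hMf i c, hc, zero_mul] at h1
      exact (mul_eq_zero.1 h1.symm).resolve_left h0

theorem leonard_rot {M : Matrix (Fin (d + 1)) (Fin (d + 1)) K} (h : IsLeonard M) :
    IsLeonard (rot M) := by
  obtain ⟨hM, ⟨T, θ, hT, hTM⟩, ⟨S, ψ, hS, hSM⟩⟩ := h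
  rw [tri_iff] at hT hS
  refine ⟨det_rot hM, ⟨_, ψ, ?_, t1 hSM⟩, ⟨Tᵀ, fun i => θ (Fin.rev i), ?_, ?_⟩⟩
  · rw [tri_iff]
    exact ⟨low_rev hS.1, low_rev hS.2⟩
  · rw [tri_iff]
    exact ⟨hT.2, by rw [Matrix.transpose_transpose]; exact hT.1⟩
  · ext i j
    have e := congrFun (congrFun hTM j) (Fin.rev i)
    rw [Matrix.mul_diagonal, Matrix.mul_apply] at e
    rw [Matrix.diagonal_mul, Matrix.mul_apply]
    simp only [rot, Matrix.transpose_apply]
    rw [mul_comm (θ (Fin.rev i)), ← e]
    exact Finset.sum_congr rfl fun k _ => mul_comm _ _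

theorem leonard_rot_iff {M : Matrix (Fin (d + 1)) (Fin (d + 1)) K} :
    IsLeonard (rot M) ↔ IsLeonard M :=
  ⟨fun h => by
    have := leonard_rot (leonard_rot (leonard_rot h))
    rwa [rot4] at this, leonard_rot⟩

theorem north_of_leonard {M : Matrix (Fin (d + 1)) (Fin (d + 1)) K} (h : IsLeonard M) :
    ∃ T θ, IrredTridiagonal T ∧ T * M = M * Matrix.diagonal θ ∧ NorthWith M θ ∧
      NorthWith (rot (rot M)) (fun j => θ (Fin.rev j)) := by
  obtain ⟨hM, ⟨T, θ, hT, hTM⟩, -⟩ := h
  refine ⟨T, θ, hT, hTM, north_of_hess hM (tri_iff.1 hT).1 hTM, ?_⟩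
  refine north_of_hess (det_rot (det_rot hM)) ?_ (t2 hTM)
  exact low_rev (tri_iff.1 hT).2

theorem fourWay_of_leonard {M : Matrix (Fin (d + 1)) (Fin (d + 1)) K} (h : IsLeonard M) :
    FourWay M := by
  have key : ∀ N : Matrix (Fin (d + 1)) (Fin (d + 1)) K, IsLeonard N → IsNorth N := fun N hN => by
    obtain ⟨T, θ, -, -, h1, -⟩ := north_of_leonard hN
    exact ⟨θ, h1⟩
  exact ⟨key _ h, key _ (leonard_rot h), key _ (leonard_rot (leonard_rot h)),
    key _ (leonard_rot (leonard_rot (leonard_rot h)))⟩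

theorem leonard_of_affine {M : Matrix (Fin (d + 1)) (Fin (d + 1)) K} (hM0 : M ≠ 0)
    (hA : AffineNodes M) (hE : IsNorth (rot M) ∨ IsNorth (rot (rot (rot M)))) : IsLeonard M := by
  obtain ⟨θ, φ, a, b, hN, hS, hab⟩ := hA
  have hM : IsUnit M.det := isUnit_det hM0 ⟨θ, hN⟩ ⟨φ, hS⟩ hE
  obtain ⟨H, hH, hHM⟩ := hess_of_north hN hM
  obtain ⟨U, hU, hUM⟩ := hess_of_north hS (det_rot (det_rot hM))
  have hU2 := t2 hUM
  rw [rot4] at hU2
  set V := U.submatrix Fin.rev Fin.rev with hV
  have hV1 : V * M = (a • H + b • (1 : Matrix (Fin (d + 1)) (Fin (d + 1)) K)) * M := by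
    rw [hU2, Matrix.add_mul, Matrix.smul_mul, Matrix.smul_mul, hHM, Matrix.one_mul]
    ext i j
    rw [Matrix.mul_diagonal, Matrix.add_apply, Matrix.smul_apply, Matrix.smul_apply,
      Matrix.mul_diagonal, hab j, smul_eq_mul, smul_eq_mul]
    ring
  have hV2 : V = a • H + b • (1 : Matrix (Fin (d + 1)) (Fin (d + 1)) K) := by
    have := congrArg (fun N => N * M⁻¹) hV1
    rwa [Matrix.mul_assoc, Matrix.mul_assoc, Matrix.mul_nonsing_inv _ hM, Matrix.mul_one,
      Matrix.mul_one] at this
  have hVlow : Low Vᵀ := low_rev hU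
  have hVH : ∀ i k : Fin (d + 1), i ≠ k → V i k = a * H i k := by
    intro i k hik
    rw [hV2, Matrix.add_apply, Matrix.smul_apply, Matrix.smul_apply, Matrix.one_apply_ne hik,
      smul_eq_mul, smul_eq_mul, mul_zero, add_zero]
  have ha : ∀ i k : Fin (d + 1), (i : ℕ) + 1 = k → a ≠ 0 := by
    intro i k hik h0
    have h1 : V k i ≠ 0 := hVlow.2 i k hik
    rw [hVH k i (fun h => by rw [h] at hik; omega), h0, zero_mul] at h1
    exact h1 rfl
  have hHT : Low Hᵀ := by
    constructor
    · intro i k hik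
      have h1 : V k i = 0 := hVlow.1 i k hik
      rw [hVH k i (fun h => by rw [h] at hik; omega)] at h1
      have h2 : a ≠ 0 := ha i ⟨(i : ℕ) + 1, by have := k.isLt; omega⟩ rfl
      exact (mul_eq_zero.1 h1).resolve_left h2
    · intro i k hik h0
      have h1 : V k i ≠ 0 := hVlow.2 i k hik
      rw [hVH k i (fun h => by rw [h] at hik; omega)] at h1
      apply h1
      have h0' : H k i = 0 := h0
      rw [h0', mul_zero]
  have hT : IrredTridiagonal H := tri_iff.2 ⟨hH, hHT⟩
  obtain ⟨k, s, hs0, hs⟩ := orth hM hN.1 hT hHM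
  refine ⟨hM, ⟨H, θ, hT, hHM⟩, ?_⟩
  rcases hE with ⟨ψ, hψ⟩ | ⟨ψ, hψ⟩
  · obtain ⟨G, hG, hGM⟩ := hess_of_north hψ (det_rot hM)
    refine ⟨_, ψ, ?_, t1' hGM⟩
    exact tri_of_low hs0 (low_rev hG) (symm_of_orth hs (t1' hGM))
  · obtain ⟨G, hG, hGM⟩ := hess_of_north hψ (det_rot (det_rot (det_rot hM)))
    refine ⟨Gᵀ, _, ?_, t3' hGM⟩
    have h1 := symm_of_orth hs (t3' hGM)
    have h2 : IrredTridiagonal G := by
      refine tri_of_low (s := fun i => (s i)⁻¹) (fun i => inv_ne_zero (hs0 i)) hG fun x y => ?_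
      have h3 := h1 y x
      rw [Matrix.transpose_apply, Matrix.transpose_apply] at h3
      have := hs0 x
      have := hs0 y
      field_simp
      linear_combination h3
    rw [tri_iff] at h2 ⊢
    exact ⟨h2.2, by rw [Matrix.transpose_transpose]; exact h2.1⟩

/-- **Main result.** For `X ≠ 0` are equivalent: `X` is the transition matrix of a Leonard pair; `X` is north
and south Vandermonde with affinely equivalent nodes, and east or west Vandermonde; `X` is east and west
Vandermonde with affinely equivalent nodes, and north or south Vandermonde. These matrices are Vandermonde in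
all four directions. -/
theorem result {K : Type*} [Field K] {d : ℕ} (X : Matrix (Fin (d + 1)) (Fin (d + 1)) K)
    (hX : X ≠ 0) :
    (IsLeonard X ↔ AffineNodes X ∧ (IsNorth (rot X) ∨ IsNorth (rot (rot (rot X))))) ∧
    (IsLeonard X ↔ AffineNodes (rot X) ∧ (IsNorth X ∨ IsNorth (rot (rot X)))) ∧
    (IsLeonard X → FourWay X) := by
  have hrot : rot X ≠ 0 := by
    intro h
    apply hX
    have : rot (rot (rot (rot X))) = 0 := by
      rw [h]
      ext i j
      rfl
    rwa [rot4] at this
  have key : ∀ Y : Matrix (Fin (d + 1)) (Fin (d + 1)) K, Y ≠ 0 →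
      (IsLeonard Y ↔ AffineNodes Y ∧ (IsNorth (rot Y) ∨ IsNorth (rot (rot (rot Y))))) := by
    intro Y hY
    constructor
    · intro h
      obtain ⟨T, θ, -, -, h1, h2⟩ := north_of_leonard h
      refine ⟨⟨θ, _, 1, 0, h1, h2, fun j => by rw [Fin.rev_rev, one_mul, add_zero]⟩, ?_⟩
      exact Or.inl (fourWay_of_leonard h).2.1
    · rintro ⟨h1, h2⟩
      exact leonard_of_affine hY h1 h2
  refine ⟨key X hX, ?_, fourWay_of_leonard⟩
  rw [← leonard_rot_iff, key (rot X) hrot, rot4]
  exact and_congr_right fun _ => or_comm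

end Pool.Agent.Results.MP_511af2_al.EqualNodes
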