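import Mathlib

/-!
# All matrices which are Vandermonde in all four directions, for `d = 0, 1, 2, 3` (MP_511af2_al, Q1, partial
result)

For a matrix with nonzero determinant and `d ≥ 1` the nodes of a direction can be chosen as the quotients of
the entries of the two outermost rows, and so the polynomials can be eliminated: for `d = 1, 2` only
inequations remain, for `d = 3` there is in addition one equation of degree `8` for each direction, which
says that the third row is given by a quadratic polynomial (`north_two`, `north_three`, `north_four`). That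
the determinant of a solution `X ≠ 0` is not zero is shown by counting the zero rows and columns
(`isUnit_det`).
-/

set_option autoImplicit false
set_option linter.unusedSectionVars false

open Matrix Polynomial

namespace Pool.Agent.Results.MP_511af2_al.SmallCases

variable {K : Type*} [Field K] {d : ℕ}

/-- `M` is north Vandermonde with the nodes `θ 0, ..., θ d`, where `θ j` belongs to the column `j`:
the nodes are mutually distinct, and there are polynomials `f i` of degree `i` with
`M i j = M 0 j * f i (θ j)`. -/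
def NorthWith (M : Matrix (Fin (d + 1)) (Fin (d + 1)) K) (θ : Fin (d + 1) → K) : Prop :=
  Function.Injective θ ∧ ∃ f : Fin (d + 1) → K[X],
    (∀ i, (f i).degree = ((i : ℕ) : WithBot ℕ)) ∧ ∀ i j, M i j = M 0 j * (f i).eval (θ j)

/-- north Vandermonde -/
def IsNorth (M : Matrix (Fin (d + 1)) (Fin (d + 1)) K) : Prop := ∃ θ, NorthWith M θ

/-- counterclockwise rotation by 90 degrees; `M` is east, south, west Vandermonde if `rot M`,
`rot (rot M)`, `rot (rot (rot M))` is north Vandermonde -/
def rot (M : Matrix (Fin (d + 1)) (Fin (d + 1)) K) :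
    Matrix (Fin (d + 1)) (Fin (d + 1)) K := fun i j => M j (Fin.rev i)

/-- Vandermonde in all four directions: north, east, south, west -/
def FourWay (M : Matrix (Fin (d + 1)) (Fin (d + 1)) K) : Prop :=
  IsNorth M ∧ IsNorth (rot M) ∧ IsNorth (rot (rot M)) ∧ IsNorth (rot (rot (rot M)))

/-- `P` holds for `X` and its three rotations. -/
def AllDir (P : Matrix (Fin (d + 1)) (Fin (d + 1)) K → Prop)
    (X : Matrix (Fin (d + 1)) (Fin (d + 1)) K) : Prop :=
  P X ∧ P (rot X) ∧ P (rot (rot X)) ∧ P (rot (rot (rot X)))

/-- The entries of the first row and the `2 × 2` minors of the first two rows are not zero. -/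
def Top {n : ℕ} (M : Matrix (Fin (n + 2)) (Fin (n + 2)) K) : Prop :=
  (∀ j, M 0 j ≠ 0) ∧ ∀ i j, i ≠ j → M 0 i * M 1 j ≠ M 0 j * M 1 i

/-- The determinant with the rows `M 0 j ^ 2`, `M 0 j * M 1 j`, `M 1 j ^ 2`, `M 0 j * M 2 j` is zero. -/
def Quartic (M : Matrix (Fin 4) (Fin 4) K) : Prop :=
  (Matrix.of ![fun j => M 0 j ^ 2, fun j => M 0 j * M 1 j, fun j => M 1 j ^ 2,
    fun j => M 0 j * M 2 j] : Matrix (Fin 4) (Fin 4) K).det = 0

theorem rot_eq (M : Matrix (Fin (d + 1)) (Fin (d + 1)) K) :
    rot M = (Mᵀ).submatrix Fin.revPerm id := rfl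

theorem det_rot {M : Matrix (Fin (d + 1)) (Fin (d + 1)) K} (h : IsUnit M.det) :
    IsUnit (rot M).det := by
  rw [rot_eq, Matrix.det_permute, Matrix.det_transpose]
  refine IsUnit.mul ?_ h
  exact ((Equiv.Perm.sign Fin.revPerm : ℤˣ).isUnit).map (Int.castRingHom K)

theorem rot4 (M : Matrix (Fin (d + 1)) (Fin (d + 1)) K) : rot (rot (rot (rot M))) = M := by
  ext i j
  simp [rot]

theorem det_of_polys {f : Fin (d + 1) → K[X]} {θ : Fin (d + 1) → K}
    (hf : ∀ i, (f i).degree = ((i : ℕ) : WithBot ℕ)) (hθ : Function.Injective θ) :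
    (Matrix.of fun i j => (f i).eval (θ j) : Matrix (Fin (d + 1)) (Fin (d + 1)) K).det ≠ 0 := by
  have hne : ∀ i, f i ≠ 0 := by
    intro i h
    have := hf i
    rw [h, degree_zero] at this
    exact absurd this (by exact_mod_cast (WithBot.bot_ne_coe))
  have hl : ∀ i, (f i).leadingCoeff ≠ 0 := fun i => leadingCoeff_ne_zero.2 (hne i)
  let p : Fin (d + 1) → K[X] := fun i => C (f i).leadingCoeff⁻¹ * f i
  have hp1 : ∀ i, (p i).natDegree = (i : ℕ) := by
    intro i
    refine natDegree_eq_of_degree_eq_some ?_
    simp only [p]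
    rw [degree_C_mul (inv_ne_zero (hl i)), hf i]
  have hp2 : ∀ i, (p i).Monic := fun i =>
    monic_C_mul_of_mul_leadingCoeff_eq_one (inv_mul_cancel₀ (hl i))
  have h1 : (Matrix.of fun i j => (f i).eval (θ j) : Matrix (Fin (d + 1)) (Fin (d + 1)) K) =
      Matrix.diagonal (fun i => (f i).leadingCoeff) *
        (Matrix.of fun i j => (p j).eval (θ i) : Matrix (Fin (d + 1)) (Fin (d + 1)) K)ᵀ := by
    ext i j
    rw [Matrix.diagonal_mul, Matrix.transpose_apply, Matrix.of_apply, Matrix.of_apply]
    simp only [p]
    rw [eval_mul, eval_C, ← mul_assoc, mul_inv_cancel₀ (hl i), one_mul]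
  rw [h1, Matrix.det_mul, Matrix.det_diagonal, Matrix.det_transpose,
    ← Matrix.det_eval_matrixOfPolynomials_eq_det_vandermonde θ p hp1 hp2]
  exact mul_ne_zero (Finset.prod_ne_zero_iff.2 fun i _ => hl i) (Matrix.det_vandermonde_ne_zero_iff.2 hθ)

theorem det_of_top {M : Matrix (Fin (d + 1)) (Fin (d + 1)) K} {θ : Fin (d + 1) → K}
    (h : NorthWith M θ) (h0 : ∀ j, M 0 j ≠ 0) : IsUnit M.det := by
  obtain ⟨hθ, f, hf, hMf⟩ := h
  have h1 : M = (Matrix.of fun i j => (f i).eval (θ j)) * Matrix.diagonal (fun j => M 0 j) := by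
    ext i j
    rw [Matrix.mul_diagonal, Matrix.of_apply, hMf i j, mul_comm]
  rw [h1, Matrix.det_mul, Matrix.det_diagonal]
  exact isUnit_iff_ne_zero.2 (mul_ne_zero (det_of_polys hf hθ)
    (Finset.prod_ne_zero_iff.2 fun j _ => h0 j))

/-- a polynomial of degree `n` has at most `n` zeros among distinct nodes -/
theorem card_zeros {p : K[X]} {n : ℕ} (hp : p.degree = (n : WithBot ℕ)) {θ : Fin (d + 1) → K}
    (hθ : Function.Injective θ) (s : Finset (Fin (d + 1))) (h : ∀ i ∈ s, p.eval (θ i) = 0) :
    s.card ≤ n := by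
  classical
  by_contra hcon
  have h1 : p = 0 := by
    refine Polynomial.eq_zero_of_natDegree_lt_card_of_eval_eq_zero' p (s.image θ) ?_ ?_
    · intro x hx
      obtain ⟨i, hi, rfl⟩ := Finset.mem_image.1 hx
      exact h i hi
    · rw [Finset.card_image_of_injective _ hθ, natDegree_eq_of_degree_eq_some hp]
      omega
  rw [h1, degree_zero] at hp
  exact absurd hp (by exact_mod_cast (WithBot.bot_ne_coe))

/-- the number of rows and columns which are not zero -/
theorem no_zero_column {M : Matrix (Fin (d + 1)) (Fin (d + 1)) K} (hM : M ≠ 0)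
    (row : Fin (d + 1) → Prop) (col : Fin (d + 1) → Prop)
    [DecidablePred row] [DecidablePred col]
    (hrow : ∀ i, ¬ row i → ∀ j, M i j = 0) 
    (hE' : (∀ c, ¬ col c → (Finset.univ.filter row).card + (c : ℕ) ≤ d) ∨
      ∀ c, ¬ col c → (Finset.univ.filter row).card ≤ (c : ℕ))
    (hN : ∀ i, ¬ row i → (Finset.univ.filter col).card ≤ (i : ℕ) ∧
      (Finset.univ.filter col).card + (i : ℕ) ≤ d) : ∀ c, col c := by
  set r := (Finset.univ.filter row).card with hr
  set c := (Finset.univ.filter col).card with hc
  by_contra hcon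
  push Not at hcon
  obtain ⟨c0, hc0⟩ := hcon
  have hsum1 : (Finset.univ.filter fun j => ¬ col j).card + c = d + 1 := by
    have := Finset.card_filter_add_card_filter_not (s := Finset.univ) col
    rw [Finset.card_univ, Fintype.card_fin] at this
    omega
  have hsum2 : (Finset.univ.filter fun j => ¬ row j).card + r = d + 1 := by
    have := Finset.card_filter_add_card_filter_not (s := Finset.univ) row
    rw [Finset.card_univ, Fintype.card_fin] at this
    omega
  have h1 : (Finset.univ.filter fun j => ¬ col j).card ≤ d + 1 - r := by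
    rcases hE' with h | h
    · calc (Finset.univ.filter fun j => ¬ col j).card ≤ (Finset.range (d + 1 - r)).card := by
            refine Finset.card_le_card_of_injOn (fun j => (j : ℕ)) ?_ ?_
            · intro j hj
              have := h j (Finset.mem_filter.1 (Finset.mem_coe.1 hj)).2
              simp only [Finset.coe_range, Set.mem_Iio]
              omega
            · intro a _ b _ hab
              exact Fin.ext hab
        _ = d + 1 - r := Finset.card_range _
    · calc (Finset.univ.filter fun j => ¬ col j).card ≤ (Finset.Ico r (d + 1)).card := by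
            refine Finset.card_le_card_of_injOn (fun j => (j : ℕ)) ?_ ?_
            · intro j hj
              have := h j (Finset.mem_filter.1 (Finset.mem_coe.1 hj)).2
              simp only [Finset.coe_Ico, Set.mem_Ico]
              exact ⟨this, j.isLt⟩
            · intro a _ b _ hab
              exact Fin.ext hab
        _ = d + 1 - r := Nat.card_Ico _ _
  have hrd : r ≤ d := by
    have := c0.isLt
    rcases hE' with h | h
    · have := h c0 hc0
      omega
    · have := h c0 hc0
      omega
  have h2 : ∃ i, ¬ row i := by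
    by_contra hall
    push Not at hall
    have : (Finset.univ.filter row) = Finset.univ := Finset.filter_true_of_mem fun i _ => hall i
    rw [this, Finset.card_univ, Fintype.card_fin] at hr
    omega
  obtain ⟨i0, hi0⟩ := h2
  have h3 := hN i0 hi0
  have h4 : (Finset.univ.filter fun j => ¬ row j).card ≤ d + 1 - c - c := by
    calc (Finset.univ.filter fun j => ¬ row j).card ≤ (Finset.Ico c (d + 1 - c)).card := by
          refine Finset.card_le_card_of_injOn (fun j => (j : ℕ)) ?_ ?_
          · intro j hj
            have := hN j (Finset.mem_filter.1 (Finset.mem_coe.1 hj)).2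
            simp only [Finset.coe_Ico, Set.mem_Ico]
            omega
          · intro a _ b _ hab
            exact Fin.ext hab
      _ = d + 1 - c - c := Nat.card_Ico _ _
  have h5 : r = 0 := by omega
  apply hM
  ext i j
  refine hrow i (fun hri => ?_) j
  have : i ∈ Finset.univ.filter row := Finset.mem_filter.2 ⟨Finset.mem_univ _, hri⟩
  rw [hr, Finset.card_eq_zero] at h5
  rw [h5] at this
  exact absurd this (Finset.notMem_empty i)

theorem isUnit_det {M : Matrix (Fin (d + 1)) (Fin (d + 1)) K} (hM : M ≠ 0) (hN : IsNorth M)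
    (hS : IsNorth (rot (rot M))) (hE : IsNorth (rot M) ∨ IsNorth (rot (rot (rot M)))) :
    IsUnit M.det := by
  classical
  obtain ⟨θ, hNθ⟩ := hN
  refine det_of_top hNθ ?_
  obtain ⟨hθ, f, hf, hMf⟩ := hNθ
  obtain ⟨φ, hφ, g, hg, hMg⟩ := hS
  have hcolS : ∀ i j, M i j = M (Fin.last d) j * (g (Fin.rev i)).eval (φ (Fin.rev j)) := by
    intro i j
    have := hMg (Fin.rev i) (Fin.rev j)
    simpa [rot] using this
  have hS0 : ∀ j, M 0 j ≠ 0 → M (Fin.last d) j ≠ 0 := by
    intro j h h'
    apply h
    rw [hcolS 0 j, h', zero_mul]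
  -- zero rows
  have hN' : ∀ row : Fin (d + 1) → Prop, (∀ i, ¬ row i → ∀ j, M i j = 0) →
      ∀ i, ¬ row i → (Finset.univ.filter fun j => M 0 j ≠ 0).card ≤ (i : ℕ) ∧
        (Finset.univ.filter fun j => M 0 j ≠ 0).card + (i : ℕ) ≤ d := by
    intro row hrow i hi
    constructor
    · refine card_zeros (hf i) hθ _ fun j hj => ?_
      have h0 := (Finset.mem_filter.1 hj).2
      have h1 := hMf i j
      rw [hrow i hi j] at h1
      exact (mul_eq_zero.1 h1.symm).resolve_left h0
    · have h2 : (Finset.univ.filter fun j => M 0 j ≠ 0).card ≤ ((Fin.rev i : Fin (d + 1)) : ℕ) := by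
        refine card_zeros (θ := fun j => φ (Fin.rev j)) (hg (Fin.rev i)) ?_ _ fun j hj => ?_
        · intro a b hab
          exact Fin.rev_injective (hφ hab)
        · have h0 := hS0 j (Finset.mem_filter.1 hj).2
          have h1 := hcolS i j
          rw [hrow i hi j] at h1
          exact (mul_eq_zero.1 h1.symm).resolve_left h0
      rw [Fin.val_rev] at h2
      have := i.isLt
      omega
  rcases hE with ⟨ψ, hψ, e, he, hMe⟩ | ⟨ψ, hψ, e, he, hMe⟩
  · have hrowE : ∀ i j, M i j = M i (Fin.last d) * (e (Fin.rev j)).eval (ψ i) := by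
      intro i j
      have := hMe (Fin.rev j) i
      simpa [rot] using this
    have hrow : ∀ i, ¬ (M i (Fin.last d) ≠ 0) → ∀ j, M i j = 0 := by
      intro i hi j
      rw [not_not] at hi
      rw [hrowE i j, hi, zero_mul]
    refine no_zero_column hM (fun i => M i (Fin.last d) ≠ 0) (fun j => M 0 j ≠ 0) hrow
      (Or.inl ?_) (hN' _ hrow)
    intro c hc
    rw [not_not] at hc
    have h2 : (Finset.univ.filter fun i => M i (Fin.last d) ≠ 0).card ≤
        ((Fin.rev c : Fin (d + 1)) : ℕ) := by
      refine card_zeros (he (Fin.rev c)) hψ _ fun i hi => ?_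
      have h0 := (Finset.mem_filter.1 hi).2
      have h1 := hrowE i c
      rw [hMf i c, hc, zero_mul] at h1
      exact (mul_eq_zero.1 h1.symm).resolve_left h0
    rw [Fin.val_rev] at h2
    have := c.isLt
    omega
  · have hrowW : ∀ i j, M i j = M i 0 * (e j).eval (ψ (Fin.rev i)) := by
      intro i j
      have := hMe j (Fin.rev i)
      simpa [rot] using this
    have hrow : ∀ i, ¬ (M i 0 ≠ 0) → ∀ j, M i j = 0 := by
      intro i hi j
      rw [not_not] at hi
      rw [hrowW i j, hi, zero_mul]
    refine no_zero_column hM (fun i => M i 0 ≠ 0) (fun j => M 0 j ≠ 0) hrow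
      (Or.inr ?_) (hN' _ hrow)
    intro c hc
    rw [not_not] at hc
    refine card_zeros (θ := fun i => ψ (Fin.rev i)) (he c) ?_ _ fun i hi => ?_
    · intro a b hab
      exact Fin.rev_injective (hψ hab)
    · have h0 := (Finset.mem_filter.1 hi).2
      have h1 := hrowW i c
      rw [hMf i c, hc, zero_mul] at h1
      exact (mul_eq_zero.1 h1.symm).resolve_left h0

theorem first_row {n : ℕ} {M : Matrix (Fin (n + 2)) (Fin (n + 2)) K} {θ : Fin (n + 2) → K}
    (h : NorthWith (d := n + 1) M θ) : ∃ α β : K, α ≠ 0 ∧ ∀ j, M 1 j = M 0 j * (α * θ j + β) := by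
  obtain ⟨-, f, hf, hMf⟩ := h
  have h1 : (f 1).degree = 1 := by simpa using hf 1
  have h2 := eq_X_add_C_of_degree_eq_one h1
  refine ⟨(f 1).leadingCoeff, (f 1).coeff 0, ?_, fun j => ?_⟩
  · rw [Ne, leadingCoeff_eq_zero]
    intro h
    rw [h, degree_zero] at h1
    exact absurd h1 (by simp)
  · rw [hMf 1 j]
    congr 1
    conv_lhs => rw [h2]
    simp only [eval_add, eval_mul, eval_C, eval_X]

theorem det_zero_of {M : Matrix (Fin 4) (Fin 4) K} (w : Fin 4 → K) (hw : w ≠ 0)
    (h : ∀ j, w 0 * M 0 j + w 1 * M 1 j + w 2 * M 2 j + w 3 * M 3 j = 0) : M.det = 0 := by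
  rw [← Matrix.exists_vecMul_eq_zero_iff]
  refine ⟨w, hw, ?_⟩
  funext j
  rw [Matrix.vecMul, dotProduct, Fin.sum_univ_four]
  exact h j

theorem top_of_north {n : ℕ} {M : Matrix (Fin (n + 2)) (Fin (n + 2)) K} (hM : IsUnit M.det)
    (h : IsNorth (d := n + 1) M) : Top M := by
  obtain ⟨θ, h⟩ := h
  obtain ⟨α, β, hα, hab⟩ := first_row h
  have h0 : ∀ j, M 0 j ≠ 0 := by
    intro j h0
    obtain ⟨-, f, -, hMf⟩ := h
    have : M.det = 0 := Matrix.det_eq_zero_of_column_eq_zero j fun i => by
      rw [hMf i j, h0, zero_mul]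
    rw [this] at hM
    exact not_isUnit_zero hM
  refine ⟨h0, fun i j hij he => ?_⟩
  rw [hab i, hab j] at he
  have h4 : M 0 i * M 0 j * α * (θ j - θ i) = 0 := by linear_combination he
  have h5 : θ j - θ i ≠ 0 := sub_ne_zero.2 fun h' => hij (h.1 h').symm
  exact mul_ne_zero (mul_ne_zero (mul_ne_zero (h0 i) (h0 j)) hα) h5 h4

theorem injective_of_top {n : ℕ} {M : Matrix (Fin (n + 2)) (Fin (n + 2)) K} (h : Top M) :
    Function.Injective (fun j => M 1 j / M 0 j) := by
  intro i j hij
  by_contra hne
  simp only at hij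
  rw [div_eq_div_iff (h.1 i) (h.1 j)] at hij
  exact h.2 i j hne (by linear_combination -hij)

theorem north_four {M : Matrix (Fin 4) (Fin 4) K} (hM : IsUnit M.det) :
    IsNorth (d := 3) M ↔ Top (n := 2) M ∧ Quartic M := by
  have hM0 := isUnit_iff_ne_zero.1 hM
  constructor
  · intro h
    refine ⟨top_of_north hM h, ?_⟩
    obtain ⟨θ, h⟩ := h
    obtain ⟨α, β, hα, hab⟩ := first_row (n := 2) h
    obtain ⟨hθ, f, hf, hMf⟩ := h
    have h2 := eq_quadratic_of_degree_le_two (p := f 2) (by simpa using (hf 2).le)
    set a := (f 2).coeff 2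
    set b := (f 2).coeff 1
    set c := (f 2).coeff 0
    unfold Quartic
    refine det_zero_of ![a * β ^ 2 / α ^ 2 - b * β / α + c, b / α - 2 * a * β / α ^ 2, a / α ^ 2, -1]
      ?_ ?_
    · intro h0
      have := congrFun h0 3
      simp at this
    · intro j
      have e1 := hab j
      have e2 : M 2 j = M 0 j * (a * θ j ^ 2 + b * θ j + c) := by
        rw [hMf 2 j, h2]
        simp only [eval_add, eval_mul, eval_pow, eval_C, eval_X]
      simp only [Matrix.of_apply, Matrix.cons_val_zero, Matrix.cons_val_one, Matrix.cons_val]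
      rw [e1, e2]
      field_simp
      ring
  · rintro ⟨hT, hQ⟩
    have h0 := hT.1
    have ht := injective_of_top hT
    set t : Fin 4 → K := fun j => M 1 j / M 0 j with htd
    have htj : ∀ j, M 1 j = M 0 j * t j := fun j => by
      have := h0 j
      simp only [htd]
      field_simp
    obtain ⟨v, hv, hv0⟩ := Matrix.exists_vecMul_eq_zero_iff.2 hQ
    have e : ∀ j, v 0 + v 1 * t j + v 2 * t j ^ 2 + v 3 * (M 2 j / M 0 j) = 0 := by
      intro j
      have e1 := congrFun hv0 j
      rw [Matrix.vecMul, dotProduct, Fin.sum_univ_four] at e1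
      simp only [Matrix.of_apply, Matrix.cons_val_zero, Matrix.cons_val_one, Matrix.cons_val,
        Pi.zero_apply] at e1
      rw [htj j] at e1
      have h0j := h0 j
      have e2 : M 0 j ^ 2 * (v 0 + v 1 * t j + v 2 * t j ^ 2 + v 3 * (M 2 j / M 0 j)) = 0 := by
        field_simp
        linear_combination e1
      exact (mul_eq_zero.1 e2).resolve_left (pow_ne_zero 2 h0j)
    have hv3 : v 3 ≠ 0 := by
      intro h3
      have hp : (C (v 2) * X ^ 2 + C (v 1) * X + C (v 0) : K[X]) = 0 := by
        refine Polynomial.eq_zero_of_natDegree_lt_card_of_eval_eq_zero _ ht ?_ ?_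
        · intro j
          have := e j
          simp only [eval_add, eval_mul, eval_pow, eval_C, eval_X]
          rw [h3] at this
          linear_combination this
        · rw [Fintype.card_fin]
          exact lt_of_le_of_lt natDegree_quadratic_le (by norm_num)
      apply hv
      have c0 := congrArg (fun q => coeff q 0) hp
      have c1 := congrArg (fun q => coeff q 1) hp
      have c2 := congrArg (fun q => coeff q 2) hp
      simp [coeff_X, coeff_C] at c0 c1 c2
      funext i
      fin_cases i
      · exact c0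
      · exact c1
      · exact c2
      · exact h3
    have hs : ∀ j, v 0 * M 0 j + v 1 * M 1 j + v 2 * (M 0 j * t j ^ 2) + v 3 * M 2 j = 0 := by
      intro j
      have h0j := h0 j
      have e1 := e j
      rw [htj j]
      have : M 2 j = M 0 j * (M 2 j / M 0 j) := by field_simp
      rw [this]
      linear_combination M 0 j * e1
    have hv2 : v 2 ≠ 0 := by
      intro h2
      refine hM0 (det_zero_of ![v 0, v 1, v 3, 0] ?_ ?_)
      · intro h
        exact hv3 (by simpa using congrFun h 2)
      · intro j
        have := hs j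
        simp only [Matrix.cons_val_zero, Matrix.cons_val_one, Matrix.cons_val]
        rw [h2] at this
        linear_combination this
    let p : K[X] := Lagrange.interpolate Finset.univ t (fun j => M 3 j / M 0 j)
    have hp : ∀ j, p.eval (t j) = M 3 j / M 0 j := fun j =>
      Lagrange.eval_interpolate_at_node _ ht.injOn (Finset.mem_univ j)
    have hpd : p.degree < (4 : ℕ) := by
      have := Lagrange.degree_interpolate_lt (s := Finset.univ) (v := t)
        (fun j => M 3 j / M 0 j) ht.injOn
      rwa [Finset.card_univ, Fintype.card_fin] at this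
    have hp3 : p.degree = (3 : ℕ) := by
      by_contra hne
      have h2 : p.degree ≤ 2 := by
        by_cases hp0 : p = 0
        · rw [hp0, degree_zero]
          exact bot_le
        · rw [degree_eq_natDegree hp0] at hpd hne ⊢
          have e1 : p.natDegree < 4 := by exact_mod_cast hpd
          have e2 : p.natDegree ≠ 3 := by exact_mod_cast hne
          have e3 : p.natDegree ≤ 2 := by omega
          exact_mod_cast e3
      have h3 := eq_quadratic_of_degree_le_two h2
      set a := p.coeff 2
      set b := p.coeff 1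
      set c := p.coeff 0
      have h4 : ∀ j, M 3 j = M 0 j * (a * t j ^ 2 + b * t j + c) := by
        intro j
        have e1 := hp j
        have h0j := h0 j
        rw [h3] at e1
        simp only [eval_add, eval_mul, eval_pow, eval_C, eval_X] at e1
        rw [e1]
        field_simp
      refine hM0 (det_zero_of ![a * v 0 - c * v 2, a * v 1 - b * v 2, a * v 3, v 2] ?_ ?_)
      · intro h
        exact hv2 (by simpa using congrFun h 3)
      · intro j
        have e1 := hs j
        simp only [Matrix.cons_val_zero, Matrix.cons_val_one, Matrix.cons_val]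
        rw [h4 j, htj j]
        rw [htj j] at e1
        linear_combination a * e1
    refine ⟨t, ht, ![1, X, C (-v 2 / v 3) * X ^ 2 + C (-v 1 / v 3) * X + C (-v 0 / v 3), p],
      ?_, ?_⟩
    · intro i
      fin_cases i
      · simp
      · simp
      · exact degree_quadratic (div_ne_zero (neg_ne_zero.2 hv2) hv3)
      · simpa using hp3
    · intro i j
      have h0j := h0 j
      fin_cases i
      · simp
      · simpa using htj j
      · have e1 := hs j
        simp only [Fin.reduceFinMk, Matrix.cons_val, eval_add, eval_mul, eval_pow, eval_C, eval_X]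
        rw [htj j] at e1
        field_simp
        linear_combination e1
      · simp [hp]
        field_simp

/-- north Vandermonde, `d = 2` -/
theorem north_three {M : Matrix (Fin 3) (Fin 3) K} (hM : IsUnit M.det) :
    IsNorth M ↔ (∀ j, M 0 j ≠ 0) ∧ ∀ i j, i ≠ j → M 0 i * M 1 j ≠ M 0 j * M 1 i := by
  constructor
  · rintro ⟨θ, hθ, f, hf, hMf⟩
    have h0 : ∀ j, M 0 j ≠ 0 := by
      intro j h
      have : M.det = 0 := Matrix.det_eq_zero_of_column_eq_zero j fun i => by rw [hMf i j, h, zero_mul]
      rw [this] at hM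
      exact not_isUnit_zero hM
    refine ⟨h0, fun i j hij h => ?_⟩
    have h1 : (f 1).degree = 1 := by simpa using hf 1
    have h2 := eq_X_add_C_of_degree_eq_one h1
    have h3 : (f 1).leadingCoeff ≠ 0 := by
      rw [Ne, leadingCoeff_eq_zero]
      intro h
      rw [h, degree_zero] at h1
      exact absurd h1 (by simp)
    rw [hMf 1 i, hMf 1 j, h2] at h
    simp only [eval_add, eval_mul, eval_C, eval_X] at h
    have h4 : M 0 i * M 0 j * (f 1).leadingCoeff * (θ j - θ i) = 0 := by linear_combination h
    have h5 : θ j - θ i ≠ 0 := sub_ne_zero.2 fun h' => hij (hθ h').symm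
    exact mul_ne_zero (mul_ne_zero (mul_ne_zero (h0 i) (h0 j)) h3) h5 h4
  · rintro ⟨h0, h1⟩
    have hθ : Function.Injective (fun j => M 1 j / M 0 j) := by
      intro i j hij
      by_contra hne
      have h0i := h0 i
      have h0j := h0 j
      simp only at hij
      rw [div_eq_div_iff h0i h0j] at hij
      exact h1 i j hne (by linear_combination -hij)
    set θ : Fin 3 → K := fun j => M 1 j / M 0 j with hθd
    let p : K[X] := Lagrange.interpolate Finset.univ θ (fun j => M 2 j / M 0 j)
    have hp : ∀ j, p.eval (θ j) = M 2 j / M 0 j := fun j =>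
      Lagrange.eval_interpolate_at_node _ hθ.injOn (Finset.mem_univ j)
    have hpd : p.degree < (3 : ℕ) := by
      have := Lagrange.degree_interpolate_lt (s := Finset.univ) (v := θ)
        (fun j => M 2 j / M 0 j) hθ.injOn
      rwa [Finset.card_univ, Fintype.card_fin] at this
    have hp2 : p.degree = (2 : ℕ) := by
      by_contra hne
      have h2 : p.natDegree ≤ 1 := by
        by_cases hp0 : p = 0
        · rw [hp0, natDegree_zero]
          exact Nat.zero_le _
        · rw [degree_eq_natDegree hp0] at hpd hne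
          have e1 : p.natDegree < 3 := by exact_mod_cast hpd
          have e2 : p.natDegree ≠ 2 := by exact_mod_cast hne
          omega
      obtain ⟨a, b, hab⟩ := exists_eq_X_add_C_of_natDegree_le_one h2
      have h3 : ∀ j, M 2 j = a * M 1 j + b * M 0 j := by
        intro j
        have e := hp j
        have h0j := h0 j
        rw [hab] at e
        simp only [eval_add, eval_mul, eval_C, eval_X, hθd] at e
        field_simp at e
        linear_combination -e
      have h4 : M.det = 0 := by
        rw [Matrix.det_fin_three, h3 0, h3 1, h3 2]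
        ring
      rw [h4] at hM
      exact not_isUnit_zero hM
    refine ⟨θ, hθ, ![1, X, p], ?_, ?_⟩
    · intro i
      fin_cases i
      · simp
      · simp
      · simpa using hp2
    · intro i j
      have h0j := h0 j
      fin_cases i
      · simp
      · simp [hθd]
        field_simp
      · simp [hp]
        field_simp

/-- north Vandermonde, `d = 1` -/
theorem north_two {M : Matrix (Fin 2) (Fin 2) K} (hM : IsUnit M.det) :
    IsNorth M ↔ ∀ j, M 0 j ≠ 0 := by
  constructor
  · rintro ⟨θ, hθ, f, hf, hMf⟩ j h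
    have : M.det = 0 := Matrix.det_eq_zero_of_column_eq_zero j fun i => by rw [hMf i j, h, zero_mul]
    rw [this] at hM
    exact not_isUnit_zero hM
  · intro h0
    have hdet := isUnit_iff_ne_zero.1 hM
    rw [Matrix.det_fin_two] at hdet
    have hne : M 1 0 / M 0 0 ≠ M 1 1 / M 0 1 := by
      intro h
      rw [div_eq_div_iff (h0 0) (h0 1)] at h
      exact hdet (by linear_combination -h)
    have hθ : Function.Injective (fun j => M 1 j / M 0 j) := by
      intro i j hij
      fin_cases i <;> fin_cases j
      · rfl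
      · exact absurd hij hne
      · exact absurd hij hne.symm
      · rfl
    refine ⟨fun j => M 1 j / M 0 j, hθ, ![1, X], ?_, ?_⟩
    · intro i
      fin_cases i
      · simp
      · simp
    · intro i j
      have h0j := h0 j
      fin_cases i
      · simp
      · simp
        field_simp

theorem north_two_top {M : Matrix (Fin 2) (Fin 2) K} (hM : IsUnit M.det) :
    IsNorth (d := 1) M ↔ Top (n := 0) M :=
  ⟨top_of_north hM, fun h => (north_two hM).2 h.1⟩

theorem north_three_top {M : Matrix (Fin 3) (Fin 3) K} (hM : IsUnit M.det) :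
    IsNorth (d := 2) M ↔ Top (n := 1) M :=
  north_three hM

theorem allDir_of {P : Matrix (Fin (d + 1)) (Fin (d + 1)) K → Prop}
    (hP : ∀ M : Matrix (Fin (d + 1)) (Fin (d + 1)) K, IsUnit M.det → (IsNorth M ↔ P M))
    {X : Matrix (Fin (d + 1)) (Fin (d + 1)) K} (hX : X ≠ 0) :
    FourWay X ↔ X.det ≠ 0 ∧ AllDir P X := by
  have key : IsUnit X.det → (FourWay X ↔ AllDir P X) := fun hM => by
    unfold FourWay AllDir
    rw [hP _ hM, hP _ (det_rot hM), hP _ (det_rot (det_rot hM)),
      hP _ (det_rot (det_rot (det_rot hM)))]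
  constructor
  · intro h
    have hM : IsUnit X.det := isUnit_det hX h.1 h.2.2.1 (Or.inl h.2.1)
    exact ⟨isUnit_iff_ne_zero.1 hM, (key hM).1 h⟩
  · rintro ⟨h1, h2⟩
    exact (key (isUnit_iff_ne_zero.2 h1)).2 h2

theorem fourWay_zero :
    FourWay (0 : Matrix (Fin (d + 1)) (Fin (d + 1)) K) ↔
      ∃ θ : Fin (d + 1) → K, Function.Injective θ := by
  constructor
  · rintro ⟨⟨θ, h, -⟩, -⟩
    exact ⟨θ, h⟩
  · rintro ⟨θ, h⟩
    have key : IsNorth (0 : Matrix (Fin (d + 1)) (Fin (d + 1)) K) :=
      ⟨θ, h, fun i => X ^ (i : ℕ), fun i => degree_X_pow _, fun i j => by simp⟩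
    have hr : rot (0 : Matrix (Fin (d + 1)) (Fin (d + 1)) K) = 0 := by
      ext i j
      rfl
    unfold FourWay
    rw [hr, hr, hr]
    exact ⟨key, key, key, key⟩

/-- **Main result.** All solutions for `d ≤ 3`, and the zero matrix for all `d`. -/
theorem result {K : Type*} [Field K] :
    (∀ X : Matrix (Fin 1) (Fin 1) K, FourWay (d := 0) X) ∧
    (∀ X : Matrix (Fin 2) (Fin 2) K, X ≠ 0 →
      (FourWay (d := 1) X ↔ X.det ≠ 0 ∧ ∀ i j, X i j ≠ 0)) ∧
    (∀ X : Matrix (Fin 3) (Fin 3) K, X ≠ 0 →
      (FourWay (d := 2) X ↔ X.det ≠ 0 ∧ AllDir (d := 2) Top X)) ∧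
    (∀ X : Matrix (Fin 4) (Fin 4) K, X ≠ 0 →
      (FourWay (d := 3) X ↔ X.det ≠ 0 ∧ AllDir (d := 3) (fun M => Top (n := 2) M ∧ Quartic M) X)) ∧
    ∀ d : ℕ, FourWay (0 : Matrix (Fin (d + 1)) (Fin (d + 1)) K) ↔
      ∃ θ : Fin (d + 1) → K, Function.Injective θ := by
  refine ⟨fun X => ?_, fun X hX => ?_, fun X hX => allDir_of (fun M => north_three_top) hX,
    fun X hX => allDir_of (fun M => north_four) hX, fun d => fourWay_zero⟩
  · have key : ∀ M : Matrix (Fin 1) (Fin 1) K, IsNorth (d := 0) M := by
      intro M
      have e : ∀ i : Fin (0 + 1), i = 0 := fun i => Fin.fin_one_eq_zero i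
      refine ⟨fun _ => 0, fun i j _ => (e i).trans (e j).symm, fun _ => 1, fun i => ?_,
        fun i j => ?_⟩
      · rw [e i]
        simp
      · rw [e i]
        simp
    exact ⟨key _, key _, key _, key _⟩
  · rw [allDir_of (d := 1) (P := Top (n := 0)) (fun M => north_two_top) hX]
    have r0 : (Fin.rev (0 : Fin 2)) = 1 := rfl
    constructor
    · rintro ⟨h, a, -, c, -⟩
      refine ⟨h, fun i j => ?_⟩
      fin_cases i
      · exact a.1 j
      · have := c.1 (Fin.rev j)
        simp only [rot, r0, Fin.rev_rev] at this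
        exact this
    · rintro ⟨h, g⟩
      have hM := isUnit_iff_ne_zero.2 h
      have key : ∀ M : Matrix (Fin 2) (Fin 2) K, IsUnit M.det → (∀ i j, M i j ≠ 0) →
          Top (n := 0) M := fun M h1 h2 => (north_two_top h1).1 ((north_two h1).2 fun j => h2 0 j)
      exact ⟨h, key _ hM g, key _ (det_rot (d := 1) hM) fun i j => g _ _,
        key _ (det_rot (d := 1) (det_rot (d := 1) hM)) fun i j => g _ _,
        key _ (det_rot (d := 1) (det_rot (d := 1) (det_rot (d := 1) hM))) fun i j => g _ _⟩

end Pool.Agent.Results.MP_511af2_al.SmallCases
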