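import Mathlib

/-!
# A two parameter family of matrices that are Vandermonde in all four directions
and do not come from Leonard pairs
-/

open Polynomial Finset

namespace Pool.Agent.Results.MP_511af2_al.TwoParameterFamily

/-- north Vandermonde -/
def IsNorth {K : Type*} [Field K] {d : ℕ} (M : Matrix (Fin (d + 1)) (Fin (d + 1)) K) : Prop :=
  ∃ (θ : Fin (d + 1) → K) (f : Fin (d + 1) → K[X]), Function.Injective θ ∧
    (∀ i, (f i).degree = ((i : ℕ) : WithBot ℕ)) ∧ ∀ i j, M i j = M 0 j * (f i).eval (θ j)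

/-- counterclockwise rotation by 90 degrees -/
def rot {K : Type*} {d : ℕ} (M : Matrix (Fin (d + 1)) (Fin (d + 1)) K) :
    Matrix (Fin (d + 1)) (Fin (d + 1)) K := fun i j => M j (Fin.rev i)

/-- Vandermonde in all four directions: north, east, south, west -/
def FourWay {K : Type*} [Field K] {d : ℕ} (M : Matrix (Fin (d + 1)) (Fin (d + 1)) K) : Prop :=
  IsNorth M ∧ IsNorth (rot M) ∧ IsNorth (rot (rot M)) ∧ IsNorth (rot (rot (rot M)))

/-- irreducible tridiagonal matrix -/
def IrredTridiagonal {K : Type*} [Field K] {d : ℕ}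
    (T : Matrix (Fin (d + 1)) (Fin (d + 1)) K) : Prop :=
  (∀ i j : Fin (d + 1), ((i : ℕ) + 1 < j ∨ (j : ℕ) + 1 < i) → T i j = 0) ∧
    ∀ i j : Fin (d + 1), ((i : ℕ) + 1 = j ∨ (j : ℕ) + 1 = i) → T i j ≠ 0

/-- `M` carries an irreducible tridiagonal matrix to a diagonal matrix, as the transition
matrices of Leonard pairs do -/
def LeonardType {K : Type*} [Field K] {d : ℕ}
    (M : Matrix (Fin (d + 1)) (Fin (d + 1)) K) : Prop :=
  ∃ (T : Matrix (Fin (d + 1)) (Fin (d + 1)) K) (θ : Fin (d + 1) → K),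
    IrredTridiagonal T ∧ T * M = M * Matrix.diagonal θ

/-- `N` is obtained from `M` by multiplying rows and columns by nonzero scalars -/
def Rescaled {K : Type*} [Field K] {d : ℕ}
    (M N : Matrix (Fin (d + 1)) (Fin (d + 1)) K) : Prop :=
  ∃ (r c : Fin (d + 1) → K), (∀ i, r i ≠ 0) ∧ (∀ j, c j ≠ 0) ∧ ∀ i j, N i j = r i * M i j * c j

/-- The polynomial `∏_{k < d - j} (1 - q^k t) * ∏_{d - j ≤ k < d} (1 - a q^k t)`. -/
noncomputable def gen {K : Type*} [Field K] (d : ℕ) (q a : K) (j : ℕ) : K[X] :=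
  ∏ k ∈ range d, (1 - C ((if k + j < d then 1 else a) * q ^ k) * X)

/-- The family: entry `(i,j)` is the coefficient of `t^i` in `gen d q a j`. -/
noncomputable def fam {K : Type*} [Field K] (d : ℕ) (q a : K) :
    Matrix (Fin (d + 1)) (Fin (d + 1)) K := fun i j => (gen d q a j).coeff i

/-- Admissible parameters. -/
def Admissible {K : Type*} [Field K] (d : ℕ) (q a : K) : Prop :=
  q ≠ 0 ∧ (∀ k, 1 ≤ k → k ≤ d → q ^ k ≠ 1) ∧ a ≠ 0 ∧ ∀ k, k < d → a * q ^ k ≠ 1

section Aux

variable {K : Type*} [Field K]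

theorem gen_coeff_zero (d : ℕ) (q a : K) (j : ℕ) : (gen d q a j).coeff 0 = 1 := by
  rw [coeff_zero_eq_eval_zero, gen, eval_prod]
  simp

theorem gen_succ (d : ℕ) (q a : K) (j : ℕ) (hj : j < d) :
    gen d q a (j + 1) * (1 - C (q ^ (d - 1 - j)) * X) =
      gen d q a j * (1 - C (a * q ^ (d - 1 - j)) * X) := by
  have hmem : d - 1 - j ∈ range d := by simp; omega
  unfold gen
  rw [← mul_prod_erase _ _ hmem, ← mul_prod_erase _ _ hmem]
  have h1 : ¬ (d - 1 - j + (j + 1) < d) := by omega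
  have h2 : d - 1 - j + j < d := by omega
  rw [if_neg h1, if_pos h2, one_mul]
  have h3 : ∏ k ∈ (range d).erase (d - 1 - j),
      (1 - C ((if k + (j + 1) < d then 1 else a) * q ^ k) * X) =
      ∏ k ∈ (range d).erase (d - 1 - j),
      (1 - C ((if k + j < d then 1 else a) * q ^ k) * X : K[X]) := by
    refine prod_congr rfl fun k hk => ?_
    have hk' : k ≠ d - 1 - j ∧ k < d := by simpa using hk
    have : (k + (j + 1) < d) ↔ (k + j < d) := by omega
    simp only [this]
  rw [h3]
  ring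

theorem coeff_rec (d : ℕ) (q a : K) (i j : ℕ) (hj : j < d) :
    (gen d q a (j + 1)).coeff (i + 1) - (gen d q a j).coeff (i + 1) =
      q ^ (d - 1 - j) * ((gen d q a (j + 1)).coeff i - a * (gen d q a j).coeff i) := by
  have h := congrArg (fun p => coeff p (i + 1)) (gen_succ d q a j hj)
  have e1 : gen d q a (j + 1) * (1 - C (q ^ (d - 1 - j)) * X) =
      gen d q a (j + 1) - C (q ^ (d - 1 - j)) * (gen d q a (j + 1) * X) := by ring
  have e2 : gen d q a j * (1 - C (a * q ^ (d - 1 - j)) * X) =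
      gen d q a j - C (a * q ^ (d - 1 - j)) * (gen d q a j * X) := by ring
  simp only [e1, e2, coeff_sub, coeff_C_mul, coeff_mul_X] at h
  linear_combination h

/-- North expansion. -/
theorem north_exp (d : ℕ) (q a : K) (h : Admissible d q a) (i : ℕ) (hi : i ≤ d) :
    ∃ F : ℕ → K, F i ≠ 0 ∧ ∀ j, j ≤ d →
      (gen d q a j).coeff i = ∑ m ∈ range (i + 1), F m * (q⁻¹ ^ j) ^ m := by
  obtain ⟨hq0, hq, ha0, ha⟩ := h
  induction i with
  | zero => exact ⟨fun _ => 1, one_ne_zero, fun j _ => by simp [gen_coeff_zero]⟩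
  | succ i ih =>
    obtain ⟨F, hF, hFj⟩ := ih (by omega)
    have hz : ∀ m, m ≤ i → (q⁻¹ ^ (m + 1) - 1 : K) ≠ 0 := by
      intro m hm h0
      have : q⁻¹ ^ (m + 1) = 1 := by linear_combination h0
      rw [inv_pow, inv_eq_one] at this
      exact hq (m + 1) (by omega) (by omega) this
    set G : ℕ → K := fun m => q ^ (d - 1) * (q⁻¹ ^ m - a) * F m / (q⁻¹ ^ (m + 1) - 1) with hG
    set c0 : K := (gen d q a 0).coeff (i + 1) - ∑ m ∈ range (i + 1), G m with hc0
    refine ⟨fun m => if m = 0 then c0 else G (m - 1), ?_, ?_⟩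
    · simp only [Nat.add_eq_zero_iff, one_ne_zero, and_false, if_false, Nat.add_sub_cancel]
      refine div_ne_zero (mul_ne_zero (mul_ne_zero (pow_ne_zero _ hq0) ?_) hF) (hz i le_rfl)
      intro h0
      have h1 : a = q⁻¹ ^ i := by linear_combination -h0
      apply ha i (by omega)
      rw [h1, inv_pow, inv_mul_cancel₀ (pow_ne_zero _ hq0)]
    · intro j hj
      have key : ∀ j, j ≤ d → (gen d q a j).coeff (i + 1) =
          c0 + ∑ m ∈ range (i + 1), G m * (q⁻¹ ^ j) ^ (m + 1) := by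
        intro j
        induction j with
        | zero => intro _; simp [hc0]
        | succ j ihj =>
          intro hj'
          have h1 := coeff_rec d q a i j (by omega)
          rw [ihj (by omega), hFj (j + 1) hj', hFj j (by omega)] at h1
          have h2 : (gen d q a (j + 1)).coeff (i + 1) =
              c0 + ∑ m ∈ range (i + 1), G m * (q⁻¹ ^ j) ^ (m + 1) +
              q ^ (d - 1 - j) * (∑ m ∈ range (i + 1), F m * (q⁻¹ ^ (j + 1)) ^ m -
                a * ∑ m ∈ range (i + 1), F m * (q⁻¹ ^ j) ^ m) := by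
            linear_combination h1
          rw [h2, add_assoc, mul_sum, ← sum_sub_distrib, mul_sum, ← sum_add_distrib]
          congr 1
          refine sum_congr rfl fun m hm => ?_
          have hm' : m ≤ i := by simpa [Nat.lt_succ_iff] using hm
          have hzm := hz m hm'
          have h3 : G m * (q⁻¹ ^ (m + 1) - 1) = q ^ (d - 1) * (q⁻¹ ^ m - a) * F m := by
            rw [hG]; exact div_mul_cancel₀ _ hzm
          have h4 : q ^ (d - 1 - j) = q ^ (d - 1) * q⁻¹ ^ j := by
            have : d - 1 = (d - 1 - j) + j := by omega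
            conv_rhs => rw [this, pow_add]
            rw [mul_assoc, ← mul_pow, mul_inv_cancel₀ hq0, one_pow, mul_one]
          have h5 : (q⁻¹ ^ (j + 1)) ^ (m + 1) = (q⁻¹ ^ j) ^ (m + 1) * q⁻¹ ^ (m + 1) := by
            rw [pow_succ q⁻¹ j, mul_pow]
          have h6 : (q⁻¹ ^ (j + 1)) ^ m = (q⁻¹ ^ j) ^ m * q⁻¹ ^ m := by
            rw [pow_succ q⁻¹ j, mul_pow]
          rw [h5, h6, h4]
          have h7 : (q⁻¹ ^ j) ^ (m + 1) = (q⁻¹ ^ j) ^ m * q⁻¹ ^ j := pow_succ _ _
          rw [h7]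
          linear_combination (-(q⁻¹ ^ j) ^ m * q⁻¹ ^ j) * h3
      rw [key j hj, sum_range_succ' (fun m => (if m = 0 then c0 else G (m - 1)) * (q⁻¹ ^ j) ^ m)]
      simp [add_comm]

theorem natDegree_factor_le (c : K) : (1 - C c * X : K[X]).natDegree ≤ 1 := by
  compute_degree

theorem natDegree_gen_le (d : ℕ) (q a : K) (j : ℕ) : (gen d q a j).natDegree ≤ d := by
  unfold gen
  refine (natDegree_prod_le _ _).trans ?_
  calc ∑ k ∈ range d, (1 - C ((if k + j < d then 1 else a) * q ^ k) * X : K[X]).natDegree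
      ≤ ∑ k ∈ range d, 1 := sum_le_sum fun k _ => natDegree_factor_le _
    _ = d := by simp

/-- `(t; q)_n` -/
noncomputable def tq (q : K) (n : ℕ) : K[X] := ∏ k ∈ range n, (1 - C (q ^ k) * X)

theorem gen_zero (d : ℕ) (q a : K) : gen d q a 0 = tq q d := by
  unfold gen tq
  refine prod_congr rfl fun k hk => ?_
  have : k + 0 < d := by simpa using hk
  rw [if_pos this, one_mul]

theorem tq_dvd_gen (d : ℕ) (q a : K) (j : ℕ) (hj : j ≤ d) : tq q (d - j) ∣ gen d q a j := by
  unfold gen tq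
  have h1 : ∏ k ∈ range (d - j), (1 - C (q ^ k) * X : K[X]) =
      ∏ k ∈ range (d - j), (1 - C ((if k + j < d then 1 else a) * q ^ k) * X) := by
    refine prod_congr rfl fun k hk => ?_
    have : k + j < d := by
      have := mem_range.1 hk
      omega
    rw [if_pos this, one_mul]
  rw [h1]
  exact prod_dvd_prod_of_subset _ _ _ (range_mono (by omega))

theorem tq_succ (q : K) (n : ℕ) : tq q (n + 1) = tq q n * (1 - C (q ^ n) * X) := by
  unfold tq; rw [prod_range_succ]

theorem eval_tq_ne_zero (d : ℕ) (q : K) (hq0 : q ≠ 0)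
    (hq : ∀ k, 1 ≤ k → k ≤ d → q ^ k ≠ 1) (n e : ℕ) (hne : n ≤ e) (he : e ≤ d) :
    (tq q n).eval (q⁻¹ ^ e) ≠ 0 := by
  unfold tq
  rw [eval_prod, prod_ne_zero_iff]
  intro k hk
  have hk' : k < n := by simpa using hk
  simp only [eval_sub, eval_one, eval_mul, eval_C, eval_X]
  intro h0
  have h1 : q ^ k * q⁻¹ ^ e = 1 := by linear_combination -h0
  apply hq (e - k) (by omega) (by omega)
  have h2 : q ^ e = q ^ k * q ^ (e - k) := by rw [← pow_add]; congr 1; omega
  have h3 : q ^ k * q⁻¹ ^ e * q ^ e = q ^ k := by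
    rw [mul_assoc, ← mul_pow, inv_mul_cancel₀ hq0, one_pow, mul_one]
  rw [h1, one_mul, h2] at h3
  have h4 : q ^ k ≠ 0 := pow_ne_zero _ hq0
  exact mul_left_cancel₀ h4 (by rw [h3, mul_one])

/-- West expansion. -/
theorem west_exp (d : ℕ) (q : K) (hq0 : q ≠ 0) (hq : ∀ k, 1 ≤ k → k ≤ d → q ^ k ≠ 1)
    (n : ℕ) : n ≤ d → ∀ P : K[X], P.natDegree ≤ d → tq q (d - n) ∣ P →
    ∃ H : ℕ → K, (∀ i, P.coeff i = (tq q d).coeff i * ∑ m ∈ range (n + 1), H m * (q⁻¹ ^ i) ^ m) ∧
      P.eval (q⁻¹ ^ (d - n)) = H n * (tq q d).eval (q⁻¹ ^ d) := by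
  induction n with
  | zero =>
    intro _ P hP hdvd
    obtain ⟨Q, hQ⟩ := hdvd
    have hdeg : (tq q d).natDegree = d := by
      unfold tq
      rw [natDegree_prod _ _ (fun k _ h0 => ?_)]
      · have : ∀ k ∈ range d, (1 - C (q ^ k) * X : K[X]).natDegree = 1 := by
          intro k _
          have hk : -(q ^ k) ≠ 0 := neg_ne_zero.2 (pow_ne_zero _ hq0)
          have : (1 - C (q ^ k) * X : K[X]) = C (-(q ^ k)) * X + C 1 := by
            simp only [C_neg, C_1]; ring
          rw [this, natDegree_linear hk]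
        rw [sum_congr rfl this]; simp
      · have := congrArg (fun p => eval 0 p) h0
        simp at this
    have hne : tq q d ≠ 0 := by
      intro h0
      have := congrArg (fun p => eval 0 p) h0
      simp [tq, eval_prod] at this
    have hQdeg : Q.natDegree = 0 := by
      by_cases hQ0 : Q = 0
      · simp [hQ0]
      · have := natDegree_mul hne hQ0
        rw [Nat.sub_zero] at hQ
        rw [← hQ, hdeg] at this
        omega
    obtain ⟨c, rfl⟩ : ∃ c, Q = C c := ⟨Q.coeff 0, eq_C_of_natDegree_eq_zero hQdeg⟩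
    refine ⟨fun _ => c, fun i => ?_, ?_⟩
    · rw [hQ]; simp
    · rw [hQ]; simp [mul_comm]
  | succ n ih =>
    intro hn P hP hdvd
    have hκ : (tq q d).eval (q⁻¹ ^ d) ≠ 0 := eval_tq_ne_zero d q hq0 hq d d le_rfl le_rfl
    set κ := (tq q d).eval (q⁻¹ ^ d) with hκdef
    set lam : K := P.eval (q⁻¹ ^ (d - (n + 1))) / κ with hlam
    set S : K[X] := (tq q d).comp (C (q⁻¹ ^ (n + 1)) * X) with hS
    have hSdvd : tq q (d - (n + 1)) ∣ S := by
      rw [hS, tq, tq, Polynomial.prod_comp]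
      have h1 : ∏ k ∈ range (d - (n + 1)), (1 - C (q ^ k) * X : K[X]) =
          ∏ k ∈ Ico (n + 1) d, (1 - C (q ^ k) * X : K[X]).comp (C (q⁻¹ ^ (n + 1)) * X) := by
        rw [prod_Ico_eq_prod_range]
        refine prod_congr rfl fun k _ => ?_
        simp only [sub_comp, one_comp, mul_comp, C_comp, X_comp]
        rw [← mul_assoc, ← C_mul]
        congr 3
        rw [add_comm (n + 1) k, pow_add, mul_assoc, ← mul_pow, mul_inv_cancel₀ hq0, one_pow,
          mul_one]
      rw [h1]
      refine prod_dvd_prod_of_subset _ _ _ ?_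
      intro k hk
      simp only [mem_Ico] at hk
      simpa using hk.2
    have hSdeg : S.natDegree ≤ d := by
      rw [hS, natDegree_comp]
      have h1 : (tq q d).natDegree ≤ d := by
        have := natDegree_gen_le d q (1 : K) 0
        rwa [gen_zero] at this
      have h2 : (C (q⁻¹ ^ (n + 1)) * X : K[X]).natDegree ≤ 1 := by compute_degree
      calc _ ≤ d * 1 := Nat.mul_le_mul h1 h2
        _ = d := by ring
    have hSeval : S.eval (q⁻¹ ^ (d - (n + 1))) = κ := by
      rw [hS, eval_comp, hκdef]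
      congr 1
      simp only [eval_mul, eval_C, eval_X]
      rw [← pow_add]
      congr 1
      omega
    have hScoeff : ∀ i, S.coeff i = (tq q d).coeff i * (q⁻¹ ^ i) ^ (n + 1) := by
      intro i
      rw [hS, comp_C_mul_X_coeff, ← pow_mul, ← pow_mul, mul_comm i]
    obtain ⟨Q, hQ⟩ := dvd_sub hdvd (dvd_mul_of_dvd_right hSdvd (C lam))
    have hQeval : Q.eval (q⁻¹ ^ (d - (n + 1))) = 0 := by
      have h1 := congrArg (fun p => eval (q⁻¹ ^ (d - (n + 1))) p) hQ
      simp only [eval_sub, eval_mul, eval_C] at h1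
      rw [hSeval, hlam, div_mul_cancel₀ _ hκ, sub_self] at h1
      have h2 : (tq q (d - (n + 1))).eval (q⁻¹ ^ (d - (n + 1))) ≠ 0 :=
        eval_tq_ne_zero d q hq0 hq _ _ le_rfl (by omega)
      exact (mul_eq_zero.1 h1.symm).resolve_left h2
    obtain ⟨R, hR⟩ := dvd_iff_isRoot.2 hQeval
    have hdvd' : tq q (d - n) ∣ P - C lam * S := by
      have h1 : d - n = (d - (n + 1)) + 1 := by omega
      rw [h1, tq_succ, hQ]
      refine mul_dvd_mul_left _ ?_
      rw [hR]
      refine dvd_mul_of_dvd_left ?_ R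
      refine ⟨-C (q⁻¹ ^ (d - (n + 1))), ?_⟩
      have h2 : C (q ^ (d - (n + 1))) * C (q⁻¹ ^ (d - (n + 1))) = (1 : K[X]) := by
        rw [← C_mul, ← mul_pow, mul_inv_cancel₀ hq0, one_pow, C_1]
      linear_combination (-X : K[X]) * h2
    have hdeg' : (P - C lam * S).natDegree ≤ d := by
      refine (natDegree_sub_le _ _).trans (max_le hP ?_)
      exact (natDegree_C_mul_le _ _).trans hSdeg
    obtain ⟨H, hH, -⟩ := ih (by omega) _ hdeg' hdvd'
    refine ⟨fun m => if m = n + 1 then lam else H m, fun i => ?_, ?_⟩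
    · have h1 := hH i
      rw [coeff_sub, coeff_C_mul, hScoeff] at h1
      rw [sum_range_succ]
      beta_reduce
      rw [if_pos rfl]
      have h2 : ∑ m ∈ range (n + 1), (if m = n + 1 then lam else H m) * (q⁻¹ ^ i) ^ m =
          ∑ m ∈ range (n + 1), H m * (q⁻¹ ^ i) ^ m := by
        refine sum_congr rfl fun m hm => ?_
        have : m ≠ n + 1 := by have := mem_range.1 hm; omega
        rw [if_neg this]
      rw [h2]
      linear_combination h1
    · simp only [if_true]
      rw [hlam, div_mul_cancel₀ _ hκ]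

theorem west_exp_gen (d : ℕ) (q a : K) (h : Admissible d q a) (j : ℕ) (hj : j ≤ d) :
    ∃ H : ℕ → K, H j ≠ 0 ∧ ∀ i,
      (gen d q a j).coeff i = (gen d q a 0).coeff i * ∑ m ∈ range (j + 1), H m * (q⁻¹ ^ i) ^ m := by
  obtain ⟨hq0, hq, ha0, ha⟩ := h
  obtain ⟨H, h1, h2⟩ := west_exp d q hq0 hq j hj (gen d q a j) (natDegree_gen_le d q a j)
    (tq_dvd_gen d q a j hj)
  refine ⟨H, ?_, fun i => by rw [h1 i, gen_zero]⟩
  intro h0
  rw [h0, zero_mul] at h2
  revert h2
  unfold gen
  rw [eval_prod]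
  refine prod_ne_zero_iff.2 fun k hk => ?_
  have hk' : k < d := by simpa using hk
  simp only [eval_sub, eval_one, eval_mul, eval_C, eval_X]
  intro h0
  by_cases hc : k + j < d
  · rw [if_pos hc] at h0
    have h3 : q ^ k * q⁻¹ ^ (d - j) = 1 := by linear_combination -h0
    have h4 : q ^ (d - j) = q ^ k * q ^ (d - j - k) := by rw [← pow_add]; congr 1; omega
    have h5 : q ^ k * q⁻¹ ^ (d - j) * q ^ (d - j) = q ^ k := by
      rw [mul_assoc, ← mul_pow, inv_mul_cancel₀ hq0, one_pow, mul_one]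
    rw [h3, one_mul, h4] at h5
    exact hq (d - j - k) (by omega) (by omega)
      (mul_left_cancel₀ (pow_ne_zero k hq0) (by rw [h5, mul_one]))
  · rw [if_neg hc] at h0
    have h3 : a * (q ^ k * q⁻¹ ^ (d - j)) = 1 := by linear_combination -h0
    apply ha (k - (d - j)) (by omega)
    have h4 : q ^ k = q ^ (k - (d - j)) * q ^ (d - j) := by rw [← pow_add]; congr 1; omega
    rw [h4, mul_assoc, ← mul_pow, mul_inv_cancel₀ hq0, one_pow, mul_one] at h3
    exact h3

theorem Admissible.inv {d : ℕ} {q a : K} (h : Admissible d q a) : Admissible d q⁻¹ a⁻¹ := by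
  obtain ⟨hq0, hq, ha0, ha⟩ := h
  refine ⟨inv_ne_zero hq0, fun k h1 h2 h3 => ?_, inv_ne_zero ha0, fun k h1 h3 => ?_⟩
  · rw [inv_pow, inv_eq_one] at h3
    exact hq k h1 h2 h3
  · rw [inv_pow, ← mul_inv, inv_eq_one] at h3
    exact ha k h1 h3

theorem gen_ne_zero_coeff (d : ℕ) (q a : K) (hq0 : q ≠ 0) (ha0 : a ≠ 0) (j k : ℕ) :
    (if k + j < d then 1 else a) * q ^ k ≠ 0 := by
  refine mul_ne_zero ?_ (pow_ne_zero _ hq0)
  split_ifs
  · exact one_ne_zero
  · exact ha0

/-- Reversal of the polynomial replaces `q, a` by their inverses. -/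
theorem gen_reverse (d : ℕ) (q a : K) (hq0 : q ≠ 0) (ha0 : a ≠ 0) (j m : ℕ) (hm : m ≤ d) :
    (gen d q a j).coeff (d - m) = (gen d q a j).coeff d * (gen d q⁻¹ a⁻¹ j).coeff m := by
  -- general statement for products of linear factors
  have key : ∀ (n : ℕ) (c : ℕ → K), (∀ k, c k ≠ 0) → ∀ m, m ≤ n →
      (∏ k ∈ range n, (1 - C (c k) * X : K[X])).coeff (n - m) =
        (∏ k ∈ range n, (-(c k))) * (∏ k ∈ range n, (1 - C (c k)⁻¹ * X : K[X])).coeff m := by
    intro n c hc
    have hdeg : ∀ n, (∏ k ∈ range n, (1 - C (c k) * X : K[X])).natDegree ≤ n := by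
      intro n
      refine (natDegree_prod_le _ _).trans ?_
      calc ∑ k ∈ range n, (1 - C (c k) * X : K[X]).natDegree
          ≤ ∑ k ∈ range n, 1 := sum_le_sum fun k _ => natDegree_factor_le _
        _ = n := by simp
    have hdeg' : ∀ n, (∏ k ∈ range n, (1 - C (c k)⁻¹ * X : K[X])).natDegree ≤ n := by
      intro n
      refine (natDegree_prod_le _ _).trans ?_
      calc ∑ k ∈ range n, (1 - C (c k)⁻¹ * X : K[X]).natDegree
          ≤ ∑ k ∈ range n, 1 := sum_le_sum fun k _ => natDegree_factor_le _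
        _ = n := by simp
    induction n with
    | zero =>
      intro m hm
      have : m = 0 := by omega
      subst this
      simp
    | succ n ih =>
      intro m hm
      rw [prod_range_succ, prod_range_succ, prod_range_succ]
      set P := ∏ k ∈ range n, (1 - C (c k) * X : K[X]) with hP
      set Q := ∏ k ∈ range n, (1 - C (c k)⁻¹ * X : K[X]) with hQ
      have e1 : P * (1 - C (c n) * X) = P - C (c n) * (P * X) := by ring
      have e2 : Q * (1 - C (c n)⁻¹ * X) = Q - C (c n)⁻¹ * (Q * X) := by ring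
      rw [e1, e2]
      simp only [coeff_sub, coeff_C_mul]
      have hcn := hc n
      rcases Nat.eq_zero_or_pos m with h0 | h0
      · subst h0
        rw [Nat.sub_zero, coeff_mul_X]
        have h1 : P.coeff (n + 1) = 0 :=
          coeff_eq_zero_of_natDegree_lt (lt_of_le_of_lt (hdeg n) (by omega))
        have h2 := ih 0 (by omega)
        rw [Nat.sub_zero] at h2
        have h3 : (Q * X).coeff 0 = 0 := by simp
        rw [h1, h2, h3]
        ring
      · obtain ⟨m, rfl⟩ : ∃ m', m = m' + 1 := ⟨m - 1, by omega⟩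
        rw [coeff_mul_X]
        rcases Nat.lt_or_ge m n with h4 | h4
        · have h5 : n + 1 - (m + 1) = (n - (m + 1)) + 1 := by omega
          have h6 := ih (m + 1) (by omega)
          have h7 := ih m (by omega)
          have h8 : n - m = (n - (m + 1)) + 1 := by omega
          rw [h5, coeff_mul_X, h6, ← h8, h7]
          field_simp
          ring
        · have h5 : m = n := by omega
          subst h5
          have h6 := ih m le_rfl
          rw [Nat.sub_self] at h6
          have h7 : Q.coeff (m + 1) = 0 :=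
            coeff_eq_zero_of_natDegree_lt (lt_of_le_of_lt (hdeg' m) (by omega))
          have h8 : (P * X).coeff (m + 1 - (m + 1)) = 0 := by simp
          rw [h8, h7, Nat.sub_self, h6]
          field_simp
          ring
  have hc := gen_ne_zero_coeff d q a hq0 ha0 j
  have h1 := key d (fun k => (if k + j < d then 1 else a) * q ^ k) hc m hm
  have h2 := key d (fun k => (if k + j < d then 1 else a) * q ^ k) hc 0 (by omega)
  have h3 : gen d q⁻¹ a⁻¹ j =
      ∏ k ∈ range d, (1 - C ((if k + j < d then 1 else a) * q ^ k)⁻¹ * X : K[X]) := by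
    unfold gen
    refine prod_congr rfl fun k _ => ?_
    congr 3
    split_ifs <;> simp [mul_comm]
  have h4 : (∏ k ∈ range d, (1 - C ((if k + j < d then 1 else a) * q ^ k)⁻¹ * X : K[X])).coeff 0
      = 1 := by rw [← h3]; exact gen_coeff_zero _ _ _ _
  rw [h4, mul_one, Nat.sub_zero] at h2
  unfold gen at h3 ⊢
  rw [h1, h2, h3]

/-- Reversal of the columns replaces `q, a` by their inverses. -/
theorem gen_flip (d : ℕ) (q a : K) (hq0 : q ≠ 0) (ha0 : a ≠ 0) (j i : ℕ) (hj : j ≤ d) :
    (gen d q a (d - j)).coeff i = (a * q ^ (d - 1)) ^ i * (gen d q⁻¹ a⁻¹ j).coeff i := by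
  have h1 : gen d q a (d - j) = (gen d q⁻¹ a⁻¹ j).comp (C (a * q ^ (d - 1)) * X) := by
    unfold gen
    rw [Polynomial.prod_comp, ← prod_range_reflect]
    refine prod_congr rfl fun k hk => ?_
    have hk' : k < d := by simpa using hk
    simp only [sub_comp, one_comp, mul_comp, C_comp, X_comp]
    rw [← mul_assoc, ← C_mul]
    congr 3
    have h2 : q ^ (d - 1) = q ^ (d - 1 - k) * q ^ k := by rw [← pow_add]; congr 1; omega
    have h3 : q⁻¹ ^ k * q ^ k = 1 := by rw [← mul_pow, inv_mul_cancel₀ hq0, one_pow]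
    rw [h2]
    by_cases hc : k + j < d
    · have hc' : ¬ (d - 1 - k + (d - j) < d) := by omega
      rw [if_pos hc, if_neg hc']
      linear_combination (-a * q ^ (d - 1 - k)) * h3
    · have hc' : d - 1 - k + (d - j) < d := by omega
      rw [if_neg hc, if_pos hc']
      have h4 : a⁻¹ * a = 1 := inv_mul_cancel₀ ha0
      linear_combination (-q ^ (d - 1 - k) * (a⁻¹ * a)) * h3 - q ^ (d - 1 - k) * h4
  rw [h1, comp_C_mul_X_coeff, mul_comm]

/-- A polynomial with prescribed coefficients. -/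
theorem exists_poly (i : ℕ) (F : ℕ → K) (hF : F i ≠ 0) :
    ∃ f : K[X], f.degree = ((i : ℕ) : WithBot ℕ) ∧
      ∀ z, f.eval z = ∑ m ∈ range (i + 1), F m * z ^ m := by
  refine ⟨∑ m ∈ range (i + 1), C (F m) * X ^ m, ?_, fun z => ?_⟩
  · rw [sum_range_succ]
    have h1 : (∑ m ∈ range i, C (F m) * X ^ m : K[X]).degree < ((i : ℕ) : WithBot ℕ) := by
      refine mem_degreeLT.1 (Submodule.sum_mem _ fun m hm => ?_)
      rw [mem_degreeLT]
      refine (degree_C_mul_X_pow_le _ _).trans_lt ?_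
      exact_mod_cast mem_range.1 hm
    rw [degree_add_eq_right_of_degree_lt]
    · exact degree_C_mul_X_pow i hF
    · rw [degree_C_mul_X_pow i hF]; exact h1
  · rw [eval_finset_sum]
    simp

theorem inj_pow (d : ℕ) (q : K) (hq0 : q ≠ 0) (hq : ∀ k, 1 ≤ k → k ≤ d → q ^ k ≠ 1)
    {i j : ℕ} (hi : i ≤ d) (hj : j ≤ d) (h : q⁻¹ ^ i = q⁻¹ ^ j) : i = j := by
  have h' : q ^ i = q ^ j := by
    rw [inv_pow, inv_pow] at h
    exact inv_injective h
  rcases lt_trichotomy i j with h1 | h1 | h1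
  · exfalso
    apply hq (j - i) (by omega) (by omega)
    have : q ^ j = q ^ i * q ^ (j - i) := by rw [← pow_add]; congr 1; omega
    rw [this] at h'
    exact mul_left_cancel₀ (pow_ne_zero i hq0) (by rw [← h', mul_one])
  · exact h1
  · exfalso
    apply hq (i - j) (by omega) (by omega)
    have : q ^ i = q ^ j * q ^ (i - j) := by rw [← pow_add]; congr 1; omega
    rw [this] at h'
    exact mul_left_cancel₀ (pow_ne_zero j hq0) (by rw [h', mul_one])

theorem northPoly (d : ℕ) (q a : K) (h : Admissible d q a) :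
    ∃ f : Fin (d + 1) → K[X], (∀ i, (f i).degree = ((i : ℕ) : WithBot ℕ)) ∧
      ∀ i j : Fin (d + 1), (gen d q a j).coeff i = (f i).eval (q⁻¹ ^ (j : ℕ)) := by
  have h1 : ∀ i : Fin (d + 1), ∃ f : K[X], f.degree = ((i : ℕ) : WithBot ℕ) ∧
      ∀ j : Fin (d + 1), (gen d q a j).coeff i = f.eval (q⁻¹ ^ (j : ℕ)) := by
    intro i
    obtain ⟨F, hF, hF'⟩ := north_exp d q a h i (by omega)
    obtain ⟨f, hf, hf'⟩ := exists_poly (i : ℕ) F hF
    exact ⟨f, hf, fun j => by rw [hF' j (by omega), hf']⟩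
  choose f hf hf' using h1
  exact ⟨f, hf, hf'⟩

theorem westPoly (d : ℕ) (q a : K) (h : Admissible d q a) :
    ∃ f : Fin (d + 1) → K[X], (∀ i, (f i).degree = ((i : ℕ) : WithBot ℕ)) ∧
      ∀ i j : Fin (d + 1), (gen d q a j).coeff i =
        (gen d q a 0).coeff i * (f j).eval (q⁻¹ ^ (i : ℕ)) := by
  have h1 : ∀ j : Fin (d + 1), ∃ f : K[X], f.degree = ((j : ℕ) : WithBot ℕ) ∧
      ∀ i : Fin (d + 1), (gen d q a j).coeff i =
        (gen d q a 0).coeff i * f.eval (q⁻¹ ^ (i : ℕ)) := by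
    intro j
    obtain ⟨F, hF, hF'⟩ := west_exp_gen d q a h j (by omega)
    obtain ⟨f, hf, hf'⟩ := exists_poly (j : ℕ) F hF
    exact ⟨f, hf, fun i => by rw [hF' i, hf']⟩
  choose f hf hf' using h1
  exact ⟨f, hf, fun i j => hf' j i⟩

theorem injective_nodes (d : ℕ) (q : K) (hq0 : q ≠ 0)
    (hq : ∀ k, 1 ≤ k → k ≤ d → q ^ k ≠ 1) :
    Function.Injective (fun j : Fin (d + 1) => q⁻¹ ^ (j : ℕ)) := fun i j h =>
  Fin.ext (inj_pow d q hq0 hq (by omega) (by omega) h)

theorem fourWay_fam (d : ℕ) (q a : K) (h : Admissible d q a) : FourWay (fam d q a) := by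
  have hi := h.inv
  have hq0 := h.1
  have ha0 := h.2.2.1
  refine ⟨?_, ?_, ?_, ?_⟩
  · obtain ⟨f, hf, hf'⟩ := northPoly d q a h
    refine ⟨fun j => q⁻¹ ^ (j : ℕ), f, injective_nodes d q h.1 h.2.1, hf, fun i j => ?_⟩
    show (gen d q a j).coeff i = (gen d q a j).coeff ((0 : Fin (d + 1)) : ℕ) * _
    rw [Fin.val_zero, gen_coeff_zero, one_mul, hf']
  · -- east
    obtain ⟨f, hf, hf'⟩ := westPoly d q⁻¹ a⁻¹ hi
    refine ⟨fun j => q⁻¹⁻¹ ^ (j : ℕ), f, injective_nodes d q⁻¹ hi.1 hi.2.1, hf, fun i j => ?_⟩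
    have e : ∀ i : Fin (d + 1), rot (fam d q a) i j =
        (a * q ^ (d - 1)) ^ (j : ℕ) * (gen d q⁻¹ a⁻¹ i).coeff j := by
      intro i
      show (gen d q a (Fin.rev i)).coeff j = _
      rw [Fin.val_rev, show d + 1 - ((i : ℕ) + 1) = d - i by omega]
      exact gen_flip d q a hq0 ha0 i j (by omega)
    rw [e i, e 0, hf' j i, Fin.val_zero]
    ring
  · -- south
    obtain ⟨f, hf, hf'⟩ := northPoly d q⁻¹ a⁻¹ hi
    refine ⟨fun j => q⁻¹⁻¹ ^ ((Fin.rev j : Fin (d + 1)) : ℕ), f, ?_, hf, fun i j => ?_⟩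
    · exact (injective_nodes d q⁻¹ hi.1 hi.2.1).comp Fin.rev_injective
    have e : ∀ i : Fin (d + 1), rot (rot (fam d q a)) i j =
        (gen d q a (Fin.rev j)).coeff d * (gen d q⁻¹ a⁻¹ (Fin.rev j)).coeff i := by
      intro i
      show (gen d q a (Fin.rev j)).coeff (Fin.rev i) = _
      rw [Fin.val_rev i, show d + 1 - ((i : ℕ) + 1) = d - i by omega]
      exact gen_reverse d q a hq0 ha0 _ i (by omega)
    rw [e i, e 0, hf' i, Fin.val_zero, gen_coeff_zero, mul_one]
  · -- west
    obtain ⟨f, hf, hf'⟩ := westPoly d q a h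
    refine ⟨fun j => q⁻¹ ^ ((Fin.rev j : Fin (d + 1)) : ℕ), f, ?_, hf, fun i j => ?_⟩
    · exact (injective_nodes d q h.1 h.2.1).comp Fin.rev_injective
    have e : ∀ i : Fin (d + 1), rot (rot (rot (fam d q a))) i j =
        (gen d q a i).coeff (Fin.rev j) := by
      intro i
      show (gen d q a (Fin.rev (Fin.rev i))).coeff (Fin.rev j) = _
      rw [Fin.rev_rev]
    rw [e i, e 0, hf' (Fin.rev j) i, Fin.val_zero]

/-- The first row of the family is affine in the north nodes. -/
theorem coeff_one_succ (d : ℕ) (q a : K) (j : ℕ) (hj : j < d) :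
    (gen d q a (j + 1)).coeff 1 - (gen d q a j).coeff 1 = q ^ (d - 1 - j) * (1 - a) := by
  have := coeff_rec d q a 0 j hj
  rw [gen_coeff_zero, gen_coeff_zero, mul_one] at this
  exact this

theorem coeff_top_ne_zero (d : ℕ) (q a : K) (hq0 : q ≠ 0) (ha0 : a ≠ 0) (j : ℕ) :
    (gen d q a j).coeff d ≠ 0 := by
  have h := gen_reverse d q a hq0 ha0 j d le_rfl
  rw [Nat.sub_self, gen_coeff_zero] at h
  intro h0
  rw [h0, zero_mul] at h
  exact one_ne_zero h

theorem not_leonardType (d : ℕ) (q a : K) (h : Admissible d q a) (hd : 2 ≤ d) :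
    ¬ LeonardType (fam d q a) := by
  rintro ⟨T, θ, ⟨hT0, hT1⟩, hTM⟩
  have hq0 := h.1
  have ha0 := h.2.2.1
  have hi := h.inv
  have ha1 : a ≠ 1 := by
    have := h.2.2.2 0 (by omega)
    simpa using this
  have ha1' : a⁻¹ ≠ 1 := by
    rwa [Ne, inv_eq_one]
  -- first row
  have hrow0 : ∀ j : Fin (d + 1), T 0 0 + T 0 ⟨1, by omega⟩ * (gen d q a j).coeff 1 = θ j := by
    intro j
    have h1 := congrFun (congrFun hTM 0) j
    rw [Matrix.mul_apply, Matrix.mul_diagonal] at h1
    rw [Finset.sum_eq_add (0 : Fin (d + 1)) ⟨1, by omega⟩ (by simp [Fin.ext_iff])] at h1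
    · simpa [fam, gen_coeff_zero] using h1
    · intro k _ hk
      have : 1 < (k : ℕ) := by
        have h2 : (k : ℕ) ≠ 0 := fun h => hk.1 (Fin.ext h)
        have h3 : (k : ℕ) ≠ 1 := fun h => hk.2 (Fin.ext h)
        omega
      rw [hT0 0 k (Or.inl (by simpa using this)), zero_mul]
    · intro h2; exact absurd (mem_univ _) h2
    · intro h2; exact absurd (mem_univ _) h2
  have hrowd : ∀ j : Fin (d + 1), T (Fin.last d) (Fin.last d) +
      T (Fin.last d) ⟨d - 1, by omega⟩ * (gen d q⁻¹ a⁻¹ j).coeff 1 = θ j := by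
    intro j
    have h1 := congrFun (congrFun hTM (Fin.last d)) j
    rw [Matrix.mul_apply, Matrix.mul_diagonal] at h1
    rw [Finset.sum_eq_add (Fin.last d) ⟨d - 1, by omega⟩
      (by rw [Ne, Fin.ext_iff]; simp; omega)] at h1
    · have h2 : fam d q a ⟨d - 1, by omega⟩ j =
          fam d q a (Fin.last d) j * (gen d q⁻¹ a⁻¹ j).coeff 1 :=
        gen_reverse d q a hq0 ha0 j 1 (by omega)
      have h3 : fam d q a (Fin.last d) j ≠ 0 := coeff_top_ne_zero d q a hq0 ha0 j
      rw [h2] at h1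
      refine mul_left_cancel₀ h3 ?_
      linear_combination h1
    · intro k _ hk
      have : (k : ℕ) + 1 < d := by
        have h2 : (k : ℕ) ≠ d := fun h => hk.1 (Fin.ext h)
        have h3 : (k : ℕ) ≠ d - 1 := fun h => hk.2 (Fin.ext h)
        omega
      rw [hT0 (Fin.last d) k (Or.inr (by simpa using this)), zero_mul]
    · intro h2; exact absurd (mem_univ _) h2
    · intro h2; exact absurd (mem_univ _) h2
  have hA : T 0 ⟨1, by omega⟩ ≠ 0 := hT1 _ _ (Or.inl (by simp))
  have hB : T (Fin.last d) ⟨d - 1, by omega⟩ ≠ 0 := hT1 _ _ (Or.inr (by simp; omega))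
  -- consecutive differences
  set A := T 0 ⟨1, by omega⟩
  set B := T (Fin.last d) ⟨d - 1, by omega⟩
  have hdiff : ∀ j : ℕ, j < d → A * (q ^ (d - 1 - j) * (1 - a)) =
      B * (q⁻¹ ^ (d - 1 - j) * (1 - a⁻¹)) := by
    intro j hj
    have e1 := hrow0 ⟨j, by omega⟩
    have e2 := hrow0 ⟨j + 1, by omega⟩
    have e3 := hrowd ⟨j, by omega⟩
    have e4 := hrowd ⟨j + 1, by omega⟩
    have e5 := coeff_one_succ d q a j hj
    have e6 := coeff_one_succ d q⁻¹ a⁻¹ j hj
    simp only at e1 e2 e3 e4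
    linear_combination e2 - e1 - e4 + e3 - A * e5 + B * e6
  have d0 := hdiff (d - 1) (by omega)
  have d1 := hdiff (d - 2) (by omega)
  rw [Nat.sub_self, pow_zero, pow_zero, one_mul, one_mul] at d0
  rw [show d - 1 - (d - 2) = 1 by omega, pow_one, pow_one] at d1
  have hAa : A * (1 - a) ≠ 0 := mul_ne_zero hA (sub_ne_zero.2 (Ne.symm ha1))
  have h5 : q * (A * (1 - a)) = q⁻¹ * (A * (1 - a)) := by
    linear_combination d1 - q⁻¹ * d0
  have h6 : q = q⁻¹ := mul_right_cancel₀ hAa h5
  apply h.2.1 2 (by omega) hd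
  calc q ^ 2 = q * q := by ring
    _ = q * q⁻¹ := by rw [← h6]
    _ = 1 := mul_inv_cancel₀ hq0

theorem coeff_one_zero (d : ℕ) (q a : K) :
    (gen d q a 0).coeff 1 = -∑ k ∈ range d, q ^ k := by
  rw [gen_zero]
  induction d with
  | zero => simp [tq, coeff_one]
  | succ n ih =>
    rw [tq_succ]
    have e : tq q n * (1 - C (q ^ n) * X) = tq q n - C (q ^ n) * (tq q n * X) := by ring
    rw [e, coeff_sub, coeff_C_mul, coeff_mul_X, ih, sum_range_succ]
    have : (tq q n).coeff 0 = 1 := by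
      rw [← gen_zero n q 1]; exact gen_coeff_zero _ _ _ _
    rw [this]
    ring

theorem rescaled_unique (d : ℕ) (q a q' a' : K) (h : Admissible d q a)
    (h' : Admissible d q' a') (hd : 2 ≤ d) (hr : Rescaled (fam d q a) (fam d q' a')) :
    q' = q ∧ a' = a := by
  obtain ⟨r, c, hr0, hc0, hrc⟩ := hr
  have ha1 : a ≠ 1 := by
    have := h.2.2.2 0 (by omega)
    simpa using this
  -- first two rows
  have e0 : ∀ j : Fin (d + 1), 1 = r 0 * c j := by
    intro j
    have := hrc 0 j
    simpa [fam, gen_coeff_zero] using this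
  have e1 : ∀ j : Fin (d + 1), (gen d q' a' j).coeff 1 =
      r ⟨1, by omega⟩ / r 0 * (gen d q a j).coeff 1 := by
    intro j
    have h1 := hrc ⟨1, by omega⟩ j
    have h2 : c j = 1 / r 0 := by
      rw [eq_div_iff (hr0 0), mul_comm]; exact (e0 j).symm
    have h3 : (gen d q' a' j).coeff 1 = r ⟨1, by omega⟩ * (gen d q a j).coeff 1 * c j := h1
    rw [h3, h2]
    ring
  set s := r ⟨1, by omega⟩ / r 0
  have hdiff : ∀ j : ℕ, j < d → q' ^ (d - 1 - j) * (1 - a') = s * (q ^ (d - 1 - j) * (1 - a)) := by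
    intro j hj
    have g1 := e1 ⟨j, by omega⟩
    have g2 := e1 ⟨j + 1, by omega⟩
    have g5 := coeff_one_succ d q a j hj
    have g6 := coeff_one_succ d q' a' j hj
    simp only at g1 g2
    linear_combination g2 - g1 - g6 + s * g5
  have d0 := hdiff (d - 1) (by omega)
  have d1 := hdiff (d - 2) (by omega)
  rw [Nat.sub_self, pow_zero, pow_zero, one_mul, one_mul] at d0
  rw [show d - 1 - (d - 2) = 1 by omega, pow_one, pow_one] at d1
  have ha1' : a' ≠ 1 := by
    have := h'.2.2.2 0 (by omega)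
    simpa using this
  have hq : q' = q := by
    have h5 : q' * (1 - a') = q * (1 - a') := by linear_combination d1 - q * d0
    exact mul_right_cancel₀ (sub_ne_zero.2 (Ne.symm ha1')) h5
  refine ⟨hq, ?_⟩
  subst hq
  have g0 := e1 0
  rw [Fin.val_zero, coeff_one_zero, coeff_one_zero] at g0
  have hsum : (∑ k ∈ range d, q' ^ k) ≠ 0 := by
    intro h0
    have := mul_geom_sum q' d
    rw [h0, mul_zero] at this
    exact h.2.1 d (by omega) le_rfl (by linear_combination -this)
  have hs : s = 1 := by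
    have : (s - 1) * (∑ k ∈ range d, q' ^ k) = 0 := by linear_combination g0
    rcases mul_eq_zero.1 this with h1 | h1
    · linear_combination h1
    · exact absurd h1 hsum
  rw [hs] at d0
  linear_combination -d0

end Aux

/-- For every field `K`, every `d` and all admissible `q, a` in `K`, the matrix `fam d q a` is
Vandermonde in all four directions; for `d ≥ 2` it does not carry an irreducible tridiagonal
matrix to a diagonal one (so it does not come from a Leonard pair), and different parameters give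
matrices that are not rescalings of each other. -/
theorem result {K : Type*} [Field K] (d : ℕ) (q a : K) (h : Admissible d q a) :
    FourWay (fam d q a) ∧
      (2 ≤ d → ¬ LeonardType (fam d q a) ∧
        ∀ q' a' : K, Admissible d q' a' → Rescaled (fam d q a) (fam d q' a') →
          q' = q ∧ a' = a) :=
  ⟨fourWay_fam d q a h, fun hd => ⟨not_leonardType d q a h hd, fun q' a' h' hr =>
    rescaled_unique d q a q' a' h h' hd hr⟩⟩

end Pool.Agent.Results.MP_511af2_al.TwoParameterFamily
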