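import Mathlib

/-!
# A matrix which is Vandermonde in all four directions and whose opposite nodes are not related by a Möbius
transformation (MP_511af2_al, Q1, partial result)

The transition matrices of Leonard pairs have equal north and south nodes and equal east and west nodes; in
the two-parameter family of the file `TwoParameterFamily` the nodes at the two ends of an axis are inverse to
each other up to affine maps. Here is a symmetric `4 × 4` matrix with small integral entries, over every field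
of characteristic not `2` or `3`, which is Vandermonde in all four directions and for which no Möbius
transformation maps the north nodes to the south nodes, or the east nodes to the west nodes.
-/

set_option autoImplicit false
set_option linter.unusedSectionVars false

open Matrix Polynomial

namespace Pool.Agent.Results.MP_511af2_al.UnrelatedNodes

variable {K : Type*} [Field K] {d : ℕ}

/-- `M` is north Vandermonde with the nodes `θ 0, ..., θ d`, where `θ j` belongs to the column `j`:
the nodes are mutually distinct, and there are polynomials `f i` of degree `i` with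
`M i j = M 0 j * f i (θ j)`. -/
def NorthWith (M : Matrix (Fin (d + 1)) (Fin (d + 1)) K) (θ : Fin (d + 1) → K) : Prop :=
  Function.Injective θ ∧ ∃ f : Fin (d + 1) → K[X],
    (∀ i, (f i).degree = ((i : ℕ) : WithBot ℕ)) ∧ ∀ i j, M i j = M 0 j * (f i).eval (θ j)

/-- north Vandermonde -/
def IsNorth (M : Matrix (Fin (d + 1)) (Fin (d + 1)) K) : Prop := ∃ θ, NorthWith M θ

/-- counterclockwise rotation by 90 degrees; `M` is east, south, west Vandermonde if `rot M`,
`rot (rot M)`, `rot (rot (rot M))` is north Vandermonde -/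
def rot (M : Matrix (Fin (d + 1)) (Fin (d + 1)) K) :
    Matrix (Fin (d + 1)) (Fin (d + 1)) K := fun i j => M j (Fin.rev i)

/-- Vandermonde in all four directions: north, east, south, west -/
def FourWay (M : Matrix (Fin (d + 1)) (Fin (d + 1)) K) : Prop :=
  IsNorth M ∧ IsNorth (rot M) ∧ IsNorth (rot (rot M)) ∧ IsNorth (rot (rot (rot M)))

/-- No Möbius transformation maps the north nodes to the south nodes: for all choices of north nodes `θ j`
(column `j`) and south nodes (`φ (d - j)` belongs to the column `j` of `M`), a relation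
`φ (d - j) * (c * θ j + e) = a * θ j + b` for all `j` is possible only with `a = b = c = e = 0`. -/
def Unrelated (M : Matrix (Fin (d + 1)) (Fin (d + 1)) K) : Prop :=
  ∀ θ φ : Fin (d + 1) → K, NorthWith M θ → NorthWith (rot (rot M)) φ →
    ∀ a b c e : K, (∀ j, φ (Fin.rev j) * (c * θ j + e) = a * θ j + b) →
      a = 0 ∧ b = 0 ∧ c = 0 ∧ e = 0

/-- the example -/
def exm (K : Type*) [Field K] : Matrix (Fin 4) (Fin 4) K :=
  !![2, 2, 2, 2; 2, 0, 4, -2; 2, 4, -2, 4; 2, -2, 4, 1]

theorem first_row {n : ℕ} {M : Matrix (Fin (n + 2)) (Fin (n + 2)) K} {θ : Fin (n + 2) → K}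
    (h : NorthWith (d := n + 1) M θ) : ∃ α β : K, α ≠ 0 ∧ ∀ j, M 1 j = M 0 j * (α * θ j + β) := by
  obtain ⟨-, f, hf, hMf⟩ := h
  have h1 : (f 1).degree = 1 := by simpa using hf 1
  have h2 := eq_X_add_C_of_degree_eq_one h1
  refine ⟨(f 1).leadingCoeff, (f 1).coeff 0, ?_, fun j => ?_⟩
  · rw [Ne, leadingCoeff_eq_zero]
    intro h
    rw [h, degree_zero] at h1
    exact absurd h1 (by simp)
  · rw [hMf 1 j]
    congr 1
    conv_lhs => rw [h2]
    simp only [eval_add, eval_mul, eval_C, eval_X]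

theorem inj4 {a b c e : K} (h1 : a ≠ b) (h2 : a ≠ c) (h3 : a ≠ e) (h4 : b ≠ c) (h5 : b ≠ e)
    (h6 : c ≠ e) : Function.Injective ![a, b, c, e] := by
  intro i j h
  fin_cases i <;> fin_cases j <;>
    first
    | rfl
    | exact absurd h h1
    | exact absurd h h2
    | exact absurd h h3
    | exact absurd h h4
    | exact absurd h h5
    | exact absurd h h6
    | exact absurd h.symm h1
    | exact absurd h.symm h2
    | exact absurd h.symm h3
    | exact absurd h.symm h4
    | exact absurd h.symm h5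
    | exact absurd h.symm h6

theorem north_of_values {M : Matrix (Fin 4) (Fin 4) K} {t : Fin 4 → K} (ht : Function.Injective t)
    {a b c p q r s : K} (ha : a ≠ 0) (hp : p ≠ 0) (h1 : ∀ j, M 1 j = M 0 j * t j)
    (h2 : ∀ j, M 2 j = M 0 j * (a * t j ^ 2 + b * t j + c))
    (h3 : ∀ j, M 3 j = M 0 j * (p * t j ^ 3 + q * t j ^ 2 + r * t j + s)) :
    NorthWith (d := 3) M t := by
  refine ⟨ht, ![1, X, C a * X ^ 2 + C b * X + C c, C p * X ^ 3 + C q * X ^ 2 + C r * X + C s],
    ?_, ?_⟩
  · intro i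
    fin_cases i
    · simp
    · simp
    · exact degree_quadratic ha
    · exact degree_cubic hp
  · intro i j
    fin_cases i
    · simp
    · simpa using h1 j
    · simpa using h2 j
    · simpa using h3 j

section Example

variable {a b : K}

theorem ne_t (ha : 2 * a = 1) (hb : 3 * b = 1) :
    (1 : K) ≠ 0 ∧ (1 : K) ≠ 2 ∧ (1 : K) ≠ -1 ∧ (0 : K) ≠ 2 ∧ (0 : K) ≠ -1 ∧ (2 : K) ≠ -1 := by
  have h2 : (2 : K) ≠ 0 := fun h => by rw [h, zero_mul] at ha; exact zero_ne_one ha
  have h3 : (3 : K) ≠ 0 := fun h => by rw [h, zero_mul] at hb; exact zero_ne_one hb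
  refine ⟨one_ne_zero, fun h => ?_, fun h => ?_, fun h => ?_, fun h => ?_, fun h => ?_⟩
  · exact one_ne_zero (α := K) (by linear_combination -h)
  · exact h2 (by linear_combination h)
  · exact h2 (by linear_combination -h)
  · exact one_ne_zero (α := K) (by linear_combination h)
  · exact h3 (by linear_combination h)

theorem ne_u (ha : 2 * a = 1) (hb : 3 * b = 1) :
    (1 : K) ≠ -2 ∧ (1 : K) ≠ -a ∧ (1 : K) ≠ 4 ∧ (-2 : K) ≠ -a ∧ (-2 : K) ≠ 4 ∧ (-a : K) ≠ 4 := by
  have h2 : (2 : K) ≠ 0 := fun h => by rw [h, zero_mul] at ha; exact zero_ne_one ha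
  have h3 : (3 : K) ≠ 0 := fun h => by rw [h, zero_mul] at hb; exact zero_ne_one hb
  have h6 : (6 : K) ≠ 0 := by
    have : (6 : K) = 2 * 3 := by norm_num
    rw [this]
    exact mul_ne_zero h2 h3
  have h9 : (9 : K) ≠ 0 := by
    have : (9 : K) = 3 * 3 := by norm_num
    rw [this]
    exact mul_ne_zero h3 h3
  refine ⟨fun h => ?_, fun h => ?_, fun h => ?_, fun h => ?_, fun h => ?_, fun h => ?_⟩
  · exact h3 (by linear_combination h)
  · exact h3 (by linear_combination 2 * h - ha)
  · exact h3 (by linear_combination -h)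
  · exact h3 (by linear_combination -2 * h + ha)
  · exact h6 (by linear_combination -h)
  · exact h9 (by linear_combination -2 * h - ha)

theorem exm_north (ha : 2 * a = 1) (hb : 3 * b = 1) :
    NorthWith (d := 3) (exm K) ![1, 0, 2, -1] := by
  have h2 : (2 : K) ≠ 0 := fun h => by rw [h, zero_mul] at ha; exact zero_ne_one ha
  have h3 : (3 : K) ≠ 0 := fun h => by rw [h, zero_mul] at hb; exact zero_ne_one hb
  have ha0 : a ≠ 0 := fun h => by rw [h, mul_zero] at ha; exact zero_ne_one ha
  obtain ⟨n1, n2, n3, n4, n5, n6⟩ := ne_t ha hb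
  refine north_of_values (inj4 n1 n2 n3 n4 n5 n6) (a := -a) (b := -a) (c := 2) (p := -3 * a ^ 2)
    (q := 7 * a ^ 2) (r := 1) (s := -1) (neg_ne_zero.2 ha0)
    (mul_ne_zero (neg_ne_zero.2 h3) (pow_ne_zero 2 ha0)) ?_ ?_ ?_
  all_goals
    intro j
    fin_cases j <;> simp [exm] <;> grind

theorem exm_west (ha : 2 * a = 1) (hb : 3 * b = 1) :
    NorthWith (d := 3) (rot (rot (rot (exm K)))) ![-1, 2, 0, 1] := by
  have h2 : (2 : K) ≠ 0 := fun h => by rw [h, zero_mul] at ha; exact zero_ne_one ha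
  have h3 : (3 : K) ≠ 0 := fun h => by rw [h, zero_mul] at hb; exact zero_ne_one hb
  have ha0 : a ≠ 0 := fun h => by rw [h, mul_zero] at ha; exact zero_ne_one ha
  obtain ⟨n1, n2, n3, n4, n5, n6⟩ := ne_t ha hb
  refine north_of_values (inj4 n6.symm n5.symm n3.symm n4.symm n2.symm n1.symm) (a := -a) (b := -a)
    (c := 2) (p := -3 * a ^ 2) (q := 7 * a ^ 2) (r := 1) (s := -1) (neg_ne_zero.2 ha0)
    (mul_ne_zero (neg_ne_zero.2 h3) (pow_ne_zero 2 ha0)) ?_ ?_ ?_
  all_goals
    intro j
    fin_cases j <;> simp [exm, rot, Fin.rev] <;> grind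

theorem exm_east (ha : 2 * a = 1) (hb : 3 * b = 1) :
    NorthWith (d := 3) (rot (exm K)) ![1, -2, -a, 4] := by
  have h2 : (2 : K) ≠ 0 := fun h => by rw [h, zero_mul] at ha; exact zero_ne_one ha
  have ha0 : a ≠ 0 := fun h => by rw [h, mul_zero] at ha; exact zero_ne_one ha
  have hb0 : b ≠ 0 := fun h => by rw [h, mul_zero] at hb; exact zero_ne_one hb
  obtain ⟨n1, n2, n3, n4, n5, n6⟩ := ne_u ha hb
  refine north_of_values (inj4 n1 n2 n3 n4 n5 n6) (a := -2 * b ^ 2) (b := b ^ 2) (c := 10 * b ^ 2)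
    (p := b ^ 3) (q := -(a * b)) (r := 7 * a * b ^ 2) (s := 20 * b ^ 3)
    (mul_ne_zero (neg_ne_zero.2 h2) (pow_ne_zero 2 hb0)) (pow_ne_zero 3 hb0) ?_ ?_ ?_
  all_goals
    intro j
    fin_cases j <;> simp [exm, rot, Fin.rev] <;> grind

theorem exm_south (ha : 2 * a = 1) (hb : 3 * b = 1) :
    NorthWith (d := 3) (rot (rot (exm K))) ![4, -a, -2, 1] := by
  have h2 : (2 : K) ≠ 0 := fun h => by rw [h, zero_mul] at ha; exact zero_ne_one ha
  have ha0 : a ≠ 0 := fun h => by rw [h, mul_zero] at ha; exact zero_ne_one ha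
  have hb0 : b ≠ 0 := fun h => by rw [h, mul_zero] at hb; exact zero_ne_one hb
  obtain ⟨n1, n2, n3, n4, n5, n6⟩ := ne_u ha hb
  refine north_of_values (inj4 n6.symm n5.symm n3.symm n4.symm n2.symm n1.symm) (a := -2 * b ^ 2)
    (b := b ^ 2) (c := 10 * b ^ 2)
    (p := b ^ 3) (q := -(a * b)) (r := 7 * a * b ^ 2) (s := 20 * b ^ 3)
    (mul_ne_zero (neg_ne_zero.2 h2) (pow_ne_zero 2 hb0)) (pow_ne_zero 3 hb0) ?_ ?_ ?_
  all_goals
    intro j
    fin_cases j <;> simp [exm, rot, Fin.rev] <;> grind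

end Example

theorem unrelated_aux {t u : Fin 4 → K}
    (hind : ∀ P Q R S : K, (∀ j, P * (t j * u j) + Q * u j + R * t j + S = 0) →
      P = 0 ∧ Q = 0 ∧ R = 0 ∧ S = 0) {θ φ : Fin 4 → K} {α β γ δ : K} (hα : α ≠ 0) (hγ : γ ≠ 0)
    (ht : ∀ j, t j = α * θ j + β) (hu : ∀ j, u j = γ * φ (Fin.rev j) + δ) (a b c e : K)
    (h : ∀ j, φ (Fin.rev j) * (c * θ j + e) = a * θ j + b) : a = 0 ∧ b = 0 ∧ c = 0 ∧ e = 0 := by
  obtain ⟨h1, h2, h3, h4⟩ := hind c (e * α - c * β) (-(δ * c + γ * a))
    (-δ * (e * α - c * β) - γ * (b * α - a * β)) (fun j => by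
      rw [ht j, hu j]
      linear_combination α * γ * h j)
  subst h1
  have he : e = 0 := by
    have : e * α = 0 := by linear_combination h2
    exact (mul_eq_zero.1 this).resolve_right hα
  subst he
  have ha : a = 0 := by
    have : γ * a = 0 := by linear_combination -h3
    exact (mul_eq_zero.1 this).resolve_left hγ
  subst ha
  have hb : b = 0 := by
    have : γ * (b * α) = 0 := by linear_combination -h4
    exact (mul_eq_zero.1 ((mul_eq_zero.1 this).resolve_left hγ)).resolve_right hα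
  exact ⟨rfl, hb, rfl, rfl⟩

theorem indep {a : K} (ha : 2 * a = 1) (h3 : (3 : K) ≠ 0) {P Q R S : K}
    (e0 : P + Q + R + S = 0) (e1 : -2 * Q + S = 0) (e2 : -P - a * Q + 2 * R + S = 0)
    (e3 : -4 * P + 4 * Q - R + S = 0) : P = 0 ∧ Q = 0 ∧ R = 0 ∧ S = 0 := by
  have h27 : (27 : K) ≠ 0 := by
    have : (27 : K) = 3 * 3 * 3 := by norm_num
    rw [this]
    exact mul_ne_zero (mul_ne_zero h3 h3) h3
  have hQ : Q = 0 := by
    have : (27 : K) * Q = 0 := by
      linear_combination 6 * e0 - 2 * e2 + 2 * e3 - 6 * e1 - Q * ha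
    exact (mul_eq_zero.1 this).resolve_left h27
  subst hQ
  have hS : S = 0 := by linear_combination e1
  subst hS
  have hP : P = 0 := by
    have : (3 : K) * P = 0 := by linear_combination e0 * (-1) - e3
    exact (mul_eq_zero.1 this).resolve_left h3
  subst hP
  exact ⟨rfl, rfl, by linear_combination e0, rfl⟩

theorem exm_unrelated {a : K} (ha : 2 * a = 1) (h3 : (3 : K) ≠ 0) : Unrelated (d := 3) (exm K) := by
  have h2 : (2 : K) ≠ 0 := fun h => by rw [h, zero_mul] at ha; exact zero_ne_one ha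
  intro θ φ h1 h2'
  obtain ⟨α, β, hα, hab⟩ := first_row (n := 2) h1
  obtain ⟨γ, δ, hγ, hc⟩ := first_row (n := 2) h2'
  refine unrelated_aux (t := ![1, 0, 2, -1]) (u := ![1, -2, -a, 4]) (β := β) (δ := δ) ?_ hα hγ
    ?_ ?_
  · intro P Q R S h
    have e0 := h 0
    have e1 := h 1
    have e2 := h 2
    have e3 := h 3
    simp at e0 e1 e2 e3
    exact indep ha h3 (by linear_combination e0) (by linear_combination e1)
      (by linear_combination e2 + P * ha) (by linear_combination e3)
  · intro j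
    have e := hab j
    fin_cases j <;> simp [exm] at e ⊢ <;> grind
  · intro j
    have e := hc (Fin.rev j)
    fin_cases j <;> simp [exm, rot, Fin.rev] at e ⊢ <;> grind

theorem exm_unrelated' {a : K} (ha : 2 * a = 1) (h3 : (3 : K) ≠ 0) :
    Unrelated (d := 3) (rot (exm K)) := by
  have h2 : (2 : K) ≠ 0 := fun h => by rw [h, zero_mul] at ha; exact zero_ne_one ha
  intro θ φ h1 h2'
  obtain ⟨α, β, hα, hab⟩ := first_row (n := 2) h1
  obtain ⟨γ, δ, hγ, hc⟩ := first_row (n := 2) h2'
  refine unrelated_aux (t := ![1, -2, -a, 4]) (u := ![1, 0, 2, -1]) (β := β) (δ := δ) ?_ hα hγ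
    ?_ ?_
  · intro P Q R S h
    have e0 := h 0
    have e1 := h 1
    have e2 := h 2
    have e3 := h 3
    simp at e0 e1 e2 e3
    obtain ⟨r1, r2, r3, r4⟩ := indep (P := P) (Q := R) (R := Q) (S := S) ha h3
      (by linear_combination e0) (by linear_combination e1)
      (by linear_combination e2 + P * ha) (by linear_combination e3)
    exact ⟨r1, r3, r2, r4⟩
  · intro j
    have e := hab j
    fin_cases j <;> simp [exm, rot, Fin.rev] at e ⊢ <;> grind
  · intro j
    have e := hc (Fin.rev j)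
    fin_cases j <;> simp [exm, rot, Fin.rev] at e ⊢ <;> grind

/-- **Main result.** Over every field of characteristic not `2` or `3` the matrix `exm K` with the rows
`2, 2, 2, 2`; `2, 0, 4, -2`; `2, 4, -2, 4`; `2, -2, 4, 1` is Vandermonde in all four directions, and neither
the north and the south nodes nor the east and the west nodes are related by a Möbius transformation. -/
theorem result {K : Type*} [Field K] (h2 : (2 : K) ≠ 0) (h3 : (3 : K) ≠ 0) :
    FourWay (d := 3) (exm K) ∧ Unrelated (d := 3) (exm K) ∧ Unrelated (d := 3) (rot (exm K)) := by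
  have ha : 2 * (2 : K)⁻¹ = 1 := mul_inv_cancel₀ h2
  have hb : 3 * (3 : K)⁻¹ = 1 := mul_inv_cancel₀ h3
  exact ⟨⟨⟨_, exm_north ha hb⟩, ⟨_, exm_east ha hb⟩, ⟨_, exm_south ha hb⟩, ⟨_, exm_west ha hb⟩⟩,
    exm_unrelated ha h3, exm_unrelated' ha h3⟩

end Pool.Agent.Results.MP_511af2_al.UnrelatedNodes
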